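import Pool.Agent.Work.MP_db9399_ts.Shares

/-!
# MP_db9399, SHR, part 2 (helper31): numbers of pairs and the tests
-/

set_option autoImplicit false
set_option linter.unusedSectionVars false

namespace Pool.Agent.Work.MP_db9399_shr_helper31

open Finset Classical
open Pool.Agent.Work.MP_db9399_ts
open Pool.Agent.Work.MP_db9399_all (nb)
open Pool.Agent.Work.MP_db9399_clj.helper75 (OO blk nB eE cO lgF scO scB scV Shr)

universe u

variable {W : Type u} [Fintype W]

theorem ng_nn (Λ : W → W → Prop) : 0 ≤ ng Λ := Nat.cast_nonneg _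

theorem ng_mono {Λ Λ' : W → W → Prop} (h : ∀ v w, Λ v w → Λ' v w) : ng Λ ≤ ng Λ' := by
  unfold ng
  exact_mod_cast card_le_card fun p hp => by
    simp only [mem_filter, mem_univ, true_and] at hp ⊢
    exact h _ _ hp

theorem ng_congr {Λ Λ' : W → W → Prop} (h : ∀ v w, Λ v w ↔ Λ' v w) : ng Λ = ng Λ' :=
  le_antisymm (ng_mono fun v w => (h v w).1) (ng_mono fun v w => (h v w).2)

/-- union bound -/
theorem ng_or (Λ Λ' : W → W → Prop) : ng (fun v w => Λ v w ∨ Λ' v w) ≤ ng Λ + ng Λ' := by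
  unfold ng
  refine le_trans (Nat.cast_le.2 (card_le_card (t := (univ.filter fun p : W × W => Λ p.1 p.2) ∪
    univ.filter fun p : W × W => Λ' p.1 p.2) fun p hp => ?_)) ?_
  · simp only [mem_union, mem_filter, mem_univ, true_and] at hp ⊢
    exact hp
  · exact_mod_cast card_union_le _ _

theorem ng_le_or {Λ Λ' Λ'' : W → W → Prop} (h : ∀ v w, Λ v w → Λ' v w ∨ Λ'' v w) :
    ng Λ ≤ ng Λ' + ng Λ'' := (ng_mono h).trans (ng_or _ _)

/-- disjoint union -/
theorem ng_disj {Λ Λ' Λ'' : W → W → Prop} (h1 : ∀ v w, Λ v w → Λ'' v w)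
    (h2 : ∀ v w, Λ' v w → Λ'' v w) (h3 : ∀ v w, Λ v w → ¬ Λ' v w) : ng Λ + ng Λ' ≤ ng Λ'' := by
  unfold ng
  rw [← Nat.cast_add, ← card_union_of_disjoint]
  · exact_mod_cast card_le_card fun p hp => by
      simp only [mem_union, mem_filter, mem_univ, true_and] at hp ⊢
      exact hp.elim (h1 _ _) (h2 _ _)
  · rw [disjoint_left]
    intro p hp hq
    simp only [mem_filter, mem_univ, true_and] at hp hq
    exact h3 _ _ hp hq

theorem ng_swap (Λ : W → W → Prop) : ng Λ = ng fun v w => Λ w v := by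
  unfold ng
  congr 1
  refine card_bij (fun p _ => (p.2, p.1)) (fun p hp => ?_) (fun p _ q _ h => ?_) fun p hp => ?_
  · simp only [mem_filter, mem_univ, true_and] at hp ⊢
    exact hp
  · have := Prod.ext_iff.1 h
    exact Prod.ext this.2 this.1
  · simp only [mem_filter, mem_univ, true_and] at hp
    exact ⟨(p.2, p.1), by simp only [mem_filter, mem_univ, true_and]; exact hp, rfl⟩

/-- number of the `w` with `Λ v w` -/
noncomputable def rr (Λ : W → W → Prop) (v : W) : ℝ := ((univ.filter fun w => Λ v w).card : ℝ)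

theorem rr_nn (Λ : W → W → Prop) (v : W) : 0 ≤ rr Λ v := Nat.cast_nonneg _

theorem ng_rr (Λ : W → W → Prop) : ng Λ = ∑ v, rr Λ v := by
  unfold ng rr
  rw [← Nat.cast_sum]
  congr 1
  rw [card_eq_sum_card_fiberwise (f := fun p : W × W => p.1) (t := univ)
    (fun _ _ => mem_coe.2 (mem_univ _))]
  refine sum_congr rfl fun v _ => ?_
  refine card_bij (fun p _ => p.2) (fun p hp => ?_) (fun p hp q hq h => ?_) fun w hw => ?_
  · simp only [mem_filter, mem_univ, true_and] at hp ⊢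
    rw [← hp.2]
    exact hp.1
  · simp only [mem_filter, mem_univ, true_and] at hp hq
    exact Prod.ext (hp.2.trans hq.2.symm) h
  · simp only [mem_filter, mem_univ, true_and] at hw
    exact ⟨(v, w), by simp only [mem_filter, mem_univ, true_and]; exact ⟨hw, trivial⟩, rfl⟩

theorem ng_T (Λ : W → W → Prop) (T : Finset W) (hT : ∀ v w, Λ v w → v ∈ T) :
    ng Λ = ∑ v ∈ T, rr Λ v := by
  rw [ng_rr]
  symm
  refine sum_subset (subset_univ _) fun v _ hv => ?_
  unfold rr
  rw [Nat.cast_eq_zero, card_eq_zero, eq_empty_iff_forall_notMem]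
  intro w hw
  simp only [mem_filter, mem_univ, true_and] at hw
  exact hv (hT v w hw)

theorem ng_le_card (Λ : W → W → Prop) (A : Finset W) (Δ : ℝ) (hA : ∀ v w, Λ v w → v ∈ A)
    (hΔ : ∀ v, rr Λ v ≤ Δ) : ng Λ ≤ A.card * Δ := by
  rw [ng_T Λ A hA]
  calc ∑ v ∈ A, rr Λ v ≤ ∑ v ∈ A, Δ := sum_le_sum fun v _ => hΔ v
    _ = A.card * Δ := by rw [sum_const, nsmul_eq_mul]

/-- linear tests -/
theorem lin_gen (Λ : W → W → Prop) (sd : W → Bool) (T : Finset W) (d : ℕ) (Δ : ℝ)
    (hT : ∀ v w, Λ v w → v ∈ T) (hΔ : ∀ v, rr Λ v ≤ Δ) (x : Bool)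
    (h : |∑ v ∈ T, rr Λ v * ((if sd v = x then 1 else 0) - 1 / 2)| ≤
      Real.log d ^ 2 * (Real.sqrt (∑ v ∈ T, rr Λ v ^ 2) + (∑ v ∈ T, |rr Λ v|) / d)) :
    ng Λ / 2 ≤ ng (fun v w => Λ v w ∧ sd v = x) +
      Real.log d ^ 2 * (Real.sqrt (Δ * ng Λ) + ng Λ / d) := by
  have h1 : ng (fun v w => Λ v w ∧ sd v = x) =
      ∑ v ∈ T, rr Λ v * (if sd v = x then 1 else 0) := by
    rw [ng_T _ T fun v w h => hT v w h.1]
    refine sum_congr rfl fun v _ => ?_
    unfold rr
    by_cases hx : sd v = x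
    · simp only [hx, and_true, if_true, mul_one]
    · simp only [hx, and_false, filter_false, card_empty, Nat.cast_zero, if_false, mul_zero]
  have h2 : ∑ v ∈ T, rr Λ v * ((if sd v = x then 1 else 0) - 1 / 2) =
      ng (fun v w => Λ v w ∧ sd v = x) - ng Λ / 2 := by
    rw [h1, ng_T Λ T hT, sum_div, ← sum_sub_distrib]
    exact sum_congr rfl fun v _ => by ring
  have h3 : ∑ v ∈ T, rr Λ v ^ 2 ≤ Δ * ng Λ := by
    rw [ng_T Λ T hT, mul_sum]
    refine sum_le_sum fun v _ => ?_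
    rw [sq]
    exact mul_le_mul_of_nonneg_right (hΔ v) (rr_nn Λ v)
  have h4 : ∑ v ∈ T, |rr Λ v| = ng Λ := by
    rw [ng_T Λ T hT]
    exact sum_congr rfl fun v _ => abs_of_nonneg (rr_nn Λ v)
  rw [h2, h4] at h
  have h5 := Real.sqrt_le_sqrt h3
  have h6 : Real.log d ^ 2 * (Real.sqrt (∑ v ∈ T, rr Λ v ^ 2) + ng Λ / d) ≤
      Real.log d ^ 2 * (Real.sqrt (Δ * ng Λ) + ng Λ / d) :=
    mul_le_mul_of_nonneg_left (by linarith) (sq_nonneg _)
  linarith [(abs_le.1 h).1]

/-- bilinear tests -/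
theorem bil_gen (Λ : W → W → Prop) (sd : W → Bool) (d : ℕ) (Δ : ℝ)
    (hΔ : ∀ v, rr Λ v ≤ Δ) (hΔ' : ∀ v, rr (fun v w => Λ w v) v ≤ Δ) (x y : Bool)
    (γ : W → W → ℝ) (hγ : ∀ v w, γ v w = if Λ v w then 1 else 0)
    (h : |∑ v, ∑ w, γ v w * ((if sd v = x ∧ sd w = y then 1 else 0) - 1 / 4)| ≤
      Real.log d ^ 2 * (Real.sqrt (∑ v, (∑ w, (γ v w + γ w v)) ^ 2) + (∑ v, ∑ w, γ v w) / d)) :
    ng Λ / 4 ≤ ng (fun v w => Λ v w ∧ sd v = x ∧ sd w = y) +
      Real.log d ^ 2 * (2 * Real.sqrt (Δ * ng Λ) + ng Λ / d) := by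
  have g1 : ∀ v, ∑ w, γ v w = rr Λ v := by
    intro v
    unfold rr
    rw [card_filter]
    push_cast
    exact sum_congr rfl fun w _ => by rw [hγ]
  have g2 : ∀ v, ∑ w, γ w v = rr (fun v w => Λ w v) v := by
    intro v
    unfold rr
    rw [card_filter]
    push_cast
    exact sum_congr rfl fun w _ => by rw [hγ]
  have h1 : ng (fun v w => Λ v w ∧ sd v = x ∧ sd w = y) =
      ∑ v, ∑ w, γ v w * (if sd v = x ∧ sd w = y then 1 else 0) := by
    rw [ng_rr]
    refine sum_congr rfl fun v _ => ?_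
    unfold rr
    rw [card_filter]
    push_cast
    refine sum_congr rfl fun w _ => ?_
    rw [hγ]
    by_cases h2 : Λ v w <;> by_cases h3 : sd v = x ∧ sd w = y
    · rw [if_pos ⟨h2, h3⟩, if_pos h2, if_pos h3]
      ring
    · rw [if_neg (fun h => h3 h.2), if_neg h3]
      ring
    · rw [if_neg (fun h => h2 h.1), if_neg h2]
      ring
    · rw [if_neg (fun h => h2 h.1), if_neg h2]
      ring
  have h2 : ∑ v, ∑ w, γ v w * ((if sd v = x ∧ sd w = y then 1 else 0) - 1 / 4) =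
      ng (fun v w => Λ v w ∧ sd v = x ∧ sd w = y) - ng Λ / 4 := by
    rw [h1, ng_rr Λ, sum_div, ← sum_sub_distrib]
    refine sum_congr rfl fun v _ => ?_
    rw [← g1 v, sum_div, ← sum_sub_distrib]
    exact sum_congr rfl fun w _ => by ring
  have h3 : ∑ v, (∑ w, (γ v w + γ w v)) ^ 2 ≤ 2 ^ 2 * (Δ * ng Λ) := by
    have h4 : ∀ v, (∑ w, (γ v w + γ w v)) ^ 2 ≤
        (2 * Δ) * (rr Λ v + rr (fun v w => Λ w v) v) := by
      intro v
      rw [sum_add_distrib, g1, g2, sq]
      have e1 := rr_nn Λ v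
      have e2 := rr_nn (fun v w => Λ w v) v
      exact mul_le_mul_of_nonneg_right (by linarith [hΔ v, hΔ' v]) (by linarith)
    refine (sum_le_sum fun v _ => h4 v).trans (le_of_eq ?_)
    rw [← mul_sum, sum_add_distrib, ← ng_rr, ← ng_rr, ← ng_swap]
    ring
  have h4 : ∑ v, ∑ w, γ v w = ng Λ := by
    rw [ng_rr]
    exact sum_congr rfl fun v _ => g1 v
  rw [h2, h4] at h
  have h5 : Real.sqrt (∑ v, (∑ w, (γ v w + γ w v)) ^ 2) ≤ 2 * Real.sqrt (Δ * ng Λ) := by
    refine (Real.sqrt_le_sqrt h3).trans ?_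
    rw [Real.sqrt_mul (by norm_num), Real.sqrt_sq (by norm_num)]
  have h6 := mul_le_mul_of_nonneg_left (add_le_add h5 (le_refl (ng Λ / d)))
    (sq_nonneg (Real.log d))
  linarith [(abs_le.1 h).1]

/-- edges between two sets -/
theorem eE_ng (E : SimpleGraph W) (A A' : Finset W) :
    eE E A A' = ng fun v w => v ∈ A ∧ w ∈ A' ∧ E.Adj v w := by
  rw [ng_T _ A fun v w h => h.1]
  unfold eE rr
  refine sum_congr rfl fun v hv => ?_
  congr 2
  ext w
  unfold nb
  simp only [mem_inter, mem_filter, mem_univ, true_and]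
  tauto

/-- a star as a set of pairs -/
theorem ng_star (A : W → Prop) (x : W) :
    ng (fun v w => w = x ∧ A v) = ((univ.filter fun v => A v).card : ℝ) := by
  unfold ng
  congr 1
  refine card_bij (fun p _ => p.1) (fun p hp => ?_) (fun p hp q hq h => ?_) fun v hv => ?_
  · simp only [mem_filter, mem_univ, true_and] at hp ⊢
    exact hp.2
  · simp only [mem_filter, mem_univ, true_and] at hp hq
    exact Prod.ext h (hp.1.trans hq.1.symm)
  · simp only [mem_filter, mem_univ, true_and] at hv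
    exact ⟨(v, x), by simp only [mem_filter, mem_univ, true_and]; exact hv, rfl⟩

/-- number of the vertices with `P` -/
noncomputable def cd (P : W → Prop) : ℝ := ((univ.filter fun v => P v).card : ℝ)

theorem cd_eq (P : W → Prop) [h : DecidablePred P] :
    ((univ.filter fun v => P v).card : ℝ) = cd P := by
  unfold cd
  exact congrArg _ (congrArg card (by ext p; simp only [mem_filter]))

theorem ng_eq (Λ : W → W → Prop) [h : DecidablePred fun p : W × W => Λ p.1 p.2] :
    ((univ.filter fun p : W × W => Λ p.1 p.2).card : ℝ) = ng Λ := by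
  unfold ng
  exact congrArg _ (congrArg card (by ext p; simp only [mem_filter]))

theorem cd_nn (P : W → Prop) : 0 ≤ cd P := Nat.cast_nonneg _

theorem cd_mono {P Q : W → Prop} (h : ∀ v, P v → Q v) : cd P ≤ cd Q := by
  unfold cd
  exact_mod_cast card_le_card fun v hv => by
    simp only [mem_filter, mem_univ, true_and] at hv ⊢
    exact h v hv

theorem ng_star' (A : W → Prop) (x : W) : ng (fun v w => w = x ∧ A v) = cd A := by
  rw [ng_star, cd_eq]

end Pool.Agent.Work.MP_db9399_shr_helper31
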