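import Pool.Agent.Work.MP_db9399_shr_helper31.Node
import Pool.Agent.Work.MP_db9399_shr_helper31.Gen

/-!
# MP_db9399, SHR, part 7 (helper31): the shares `f6`, `f6'`, `f7`, `f8` (edges inside `O`)
-/

set_option autoImplicit false
set_option linter.unusedSectionVars false

namespace Pool.Agent.Work.MP_db9399_shr_helper31

open Finset Classical
open Pool.Agent.Work.MP_db9399_ts
open Pool.Agent.Work.MP_db9399_all (nb)
open Pool.Agent.Work.MP_db9399_sg (nsd)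
open Pool.Agent.Work.MP_db9399_clj.helper75 (OO blk nB eE cO lgF scO scB scV Shr)

universe u

variable {W B : Type u} [Fintype W] [Fintype B]

/-- the situation inside `O` -/
structure Ohy (X : Dat W B) (H F R : SimpleGraph W) (c2 K1 : ℝ) : Prop where
  FH : ∀ v w, F.Adj v w → ¬ R.Adj v w → H.Adj v w
  FG : ∀ v w, F.Adj v w → X.G.Adj v w
  R5 : ∀ v, (nb R v).card ≤ 5
  reg : ∀ v, (nb X.G v).card = X.d
  c20 : 0 ≤ c2
  c21 : c2 ≤ 1
  f6 : ∀ u ∈ OO X.bl, ∀ w ∈ OO X.bl, u ≠ w →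
    (X.d : ℝ) ^ (9 / 10 : ℝ) ≤ cO X.G X.bl u w → c2 * cO X.G X.bl u w ≤ cO F X.bl u w
  f6' : ∀ u ∈ OO X.bl,
    c2 * ∑ w ∈ (OO X.bl).filter (fun w => cO X.G X.bl u w < (X.d : ℝ) ^ (9 / 10 : ℝ)),
      cO X.G X.bl u w ≤
    ∑ w ∈ (OO X.bl).filter (fun w => cO X.G X.bl u w < (X.d : ℝ) ^ (9 / 10 : ℝ)),
      cO F X.bl u w + (X.d : ℝ) ^ (185 / 100 : ℝ)
  f7 : ∀ u ∈ OO X.bl, ∀ A : Finset B, (A.card : ℝ) ≤ K1 →
    c2 * ((nb X.G u ∩ lgF X.G X.bl X.d A).card : ℝ) ≤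
      ((nb F u ∩ lgF X.G X.bl X.d A).card : ℝ) + (X.d : ℝ) ^ (8 / 10 : ℝ)
  f8 : ∀ y ∈ OO X.bl, c2 * ((nb X.G y ∩ OO X.bl).card : ℝ) ≤
    ((nb F y ∩ OO X.bl).card : ℝ) + (X.d : ℝ) ^ (8 / 10 : ℝ)

variable {X : Dat W B} {H F R : SimpleGraph W} {c2 K1 : ℝ}

theorem lose (h : Ohy X H F R c2 K1) (y : W) (S : Finset W) :
    ((nb F y ∩ S).card : ℝ) ≤ ((nb H y ∩ S).card : ℝ) + 5 := by
  have h1 : nb F y ∩ S ⊆ (nb H y ∩ S) ∪ nb R y := by
    intro z hz
    rw [mem_inter] at hz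
    rw [mem_union, mem_inter]
    unfold nb at hz ⊢
    simp only [mem_filter, mem_univ, true_and] at hz ⊢
    by_cases hR : R.Adj y z
    · exact Or.inr hR
    · exact Or.inl ⟨h.FH y z hz.1 hR, hz.2⟩
  have h2 := ((card_le_card h1).trans (card_union_le _ _)).trans
    (Nat.add_le_add_left (h.R5 y) _)
  exact_mod_cast h2

theorem o8 (h : Ohy X H F R c2 K1) (y : W) (hy : y ∈ OO X.bl) :
    c2 * ((nb X.G y ∩ OO X.bl).card : ℝ) ≤ ((nb H y ∩ OO X.bl).card : ℝ) +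
      ((X.d : ℝ) ^ (8 / 10 : ℝ) + 5) := by
  linarith [h.f8 y hy, lose h y (OO X.bl)]

theorem o7 (h : Ohy X H F R c2 K1) (y : W) (hy : y ∈ OO X.bl) (A : Finset B)
    (hA : (A.card : ℝ) ≤ K1) :
    c2 * ((nb X.G y ∩ lgF X.G X.bl X.d A).card : ℝ) ≤
      ((nb H y ∩ lgF X.G X.bl X.d A).card : ℝ) + ((X.d : ℝ) ^ (8 / 10 : ℝ) + 5) := by
  linarith [h.f7 y hy A hA, lose h y (lgF X.G X.bl X.d A)]

/-- codegrees lose little -/
theorem loseC (h : Ohy X H F R c2 K1) (u w : W) :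
    cO F X.bl u w ≤ cO H X.bl u w + rr (fun w z => R.Adj u z ∧ X.G.Adj w z) w +
      rr (fun w z => X.G.Adj u z ∧ R.Adj w z) w := by
  have h1 : nb F u ∩ nb F w ∩ OO X.bl ⊆ (nb H u ∩ nb H w ∩ OO X.bl) ∪
      (univ.filter fun z => R.Adj u z ∧ X.G.Adj w z) ∪
      (univ.filter fun z => X.G.Adj u z ∧ R.Adj w z) := by
    intro z hz
    rw [mem_inter, mem_inter] at hz
    rw [mem_union, mem_union, mem_inter, mem_inter]
    unfold nb at hz ⊢
    simp only [mem_filter, mem_univ, true_and] at hz ⊢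
    obtain ⟨⟨g1, g2⟩, g3⟩ := hz
    by_cases hR : R.Adj u z
    · exact Or.inl (Or.inr ⟨hR, h.FG w z g2⟩)
    · by_cases hR' : R.Adj w z
      · exact Or.inr ⟨h.FG u z g1, hR'⟩
      · exact Or.inl (Or.inl ⟨⟨h.FH u z g1 hR, h.FH w z g2 hR'⟩, g3⟩)
  have h2 := (card_le_card h1).trans ((card_union_le _ _).trans
    (Nat.add_le_add_right (card_union_le _ _) _))
  have h3 : cO F X.bl u w ≤ cO H X.bl u w +
      ((univ.filter fun z => R.Adj u z ∧ X.G.Adj w z).card : ℝ) +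
      ((univ.filter fun z => X.G.Adj u z ∧ R.Adj w z).card : ℝ) := by
    unfold cO
    exact_mod_cast h2
  rw [cd_eq, cd_eq] at h3
  have e1 : rr (fun w z => R.Adj u z ∧ X.G.Adj w z) w = cd fun z => R.Adj u z ∧ X.G.Adj w z := by
    unfold rr
    rw [cd_eq]
  have e2 : rr (fun w z => X.G.Adj u z ∧ R.Adj w z) w = cd fun z => X.G.Adj u z ∧ R.Adj w z := by
    unfold rr
    rw [cd_eq]
  rw [e1, e2]
  exact h3

theorem rr_le_S (Λ : W → W → Prop) (v : W) (S : Finset W) (n : ℕ) (h : ∀ w, Λ v w → w ∈ S)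
    (hS : S.card ≤ n) : rr Λ v ≤ n := by
  unfold rr
  refine Nat.cast_le.2 ((card_le_card fun w hw => ?_).trans hS)
  simp only [mem_filter, mem_univ, true_and] at hw
  exact h w hw

theorem loseT (h : Ohy X H F R c2 K1) (u : W) :
    ng (fun w z => R.Adj u z ∧ X.G.Adj w z) + ng (fun w z => X.G.Adj u z ∧ R.Adj w z) ≤
      10 * X.d := by
  have h1 : ng (fun w z => R.Adj u z ∧ X.G.Adj w z) ≤ 5 * X.d := by
    rw [ng_swap]
    refine (ng_le_card _ (nb R u) X.d (fun z w hz => ?_) fun z => ?_).trans ?_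
    · unfold nb
      simp only [mem_filter, mem_univ, true_and]
      exact hz.1
    · unfold rr
      rw [← h.reg z]
      exact_mod_cast card_le_card fun w hw => by
        unfold nb
        simp only [mem_filter, mem_univ, true_and] at hw ⊢
        exact hw.2.symm
    · refine mul_le_mul_of_nonneg_right ?_ (Nat.cast_nonneg _)
      exact_mod_cast h.R5 u
  have h2 : ng (fun w z => X.G.Adj u z ∧ R.Adj w z) ≤ 5 * X.d := by
    rw [ng_swap]
    refine (ng_le_card _ (nb X.G u) 5 (fun z w hz => ?_) fun z => ?_).trans ?_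
    · unfold nb
      simp only [mem_filter, mem_univ, true_and]
      exact hz.1
    · exact rr_le_S _ z (nb R z) 5 (fun w hw => by
        unfold nb
        simp only [mem_filter, mem_univ, true_and]
        exact hw.2.symm) (h.R5 z)
    · rw [h.reg u, mul_comm]
  linarith

theorem rr_le_ng (Λ : W → W → Prop) (w : W) : rr Λ w ≤ ng Λ := by
  rw [ng_rr]
  exact single_le_sum (fun v _ => rr_nn Λ v) (mem_univ w)

theorem o6 (h : Ohy X H F R c2 K1) (u : W) (hu : u ∈ OO X.bl) (w : W) (hw : w ∈ OO X.bl)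
    (huw : u ≠ w) (hc : (X.d : ℝ) ^ (9 / 10 : ℝ) ≤ cO X.G X.bl u w) :
    c2 * cO X.G X.bl u w ≤ cO H X.bl u w + 10 := by
  have h1 := h.f6 u hu w hw huw hc
  have h2 := loseC h u w
  have h3 : rr (fun w z => R.Adj u z ∧ X.G.Adj w z) w ≤ 5 :=
    rr_le_S _ w (nb R u) 5 (fun z hz => by
      unfold nb
      simp only [mem_filter, mem_univ, true_and]
      exact hz.1) (h.R5 u)
  have h4 : rr (fun w z => X.G.Adj u z ∧ R.Adj w z) w ≤ 5 :=
    rr_le_S _ w (nb R w) 5 (fun z hz => by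
      unfold nb
      simp only [mem_filter, mem_univ, true_and]
      exact hz.2) (h.R5 w)
  linarith

theorem cO_nn (E : SimpleGraph W) (u w : W) : 0 ≤ cO E X.bl u w := Nat.cast_nonneg _

theorem o6' (h : Ohy X H F R c2 K1) (u : W) (hu : u ∈ OO X.bl) (t5 : ℝ)
    (ht5 : (X.d : ℝ) ^ (9 / 10 : ℝ) ≤ t5) :
    c2 * ∑ w ∈ (OO X.bl).filter (fun w => cO X.G X.bl u w < t5), cO X.G X.bl u w ≤
    ∑ w ∈ (OO X.bl).filter (fun w => cO X.G X.bl u w < t5), cO H X.bl u w +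
      ((X.d : ℝ) ^ (185 / 100 : ℝ) + 11 * X.d) := by
  set A := (OO X.bl).filter (fun w => cO X.G X.bl u w < t5) with hA
  set A1 := (OO X.bl).filter (fun w => cO X.G X.bl u w < (X.d : ℝ) ^ (9 / 10 : ℝ)) with hA1
  have hsub : A1 ⊆ A := by
    intro w hw
    rw [hA1, mem_filter] at hw
    rw [hA, mem_filter]
    exact ⟨hw.1, lt_of_lt_of_le hw.2 ht5⟩
  have h1 := h.f6' u hu
  have h2 : c2 * ∑ w ∈ A \ A1, cO X.G X.bl u w ≤ ∑ w ∈ A \ A1, cO F X.bl u w + X.d := by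
    have h3 : ∀ w ∈ A \ A1, c2 * cO X.G X.bl u w ≤ cO F X.bl u w + if w = u then (X.d : ℝ) else 0 := by
      intro w hw
      rw [mem_sdiff] at hw
      have hwO : w ∈ OO X.bl := by
        rw [hA, mem_filter] at hw
        exact hw.1.1
      by_cases hwu : w = u
      · rw [if_pos hwu]
        have h4 : cO X.G X.bl u w ≤ X.d := by
          unfold cO
          rw [← h.reg u]
          exact_mod_cast card_le_card fun z hz => by
            rw [mem_inter, mem_inter] at hz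
            exact hz.1.1
        have h5 := mul_le_mul_of_nonneg_right h.c21 (cO_nn (X := X) X.G u w)
        linarith [cO_nn (X := X) F u w]
      · rw [if_neg hwu, add_zero]
        refine h.f6 u hu w hwO (Ne.symm hwu) ?_
        by_contra hlt
        refine hw.2 ?_
        rw [hA1, mem_filter]
        exact ⟨hwO, not_le.1 hlt⟩
    rw [mul_sum]
    refine (sum_le_sum h3).trans ?_
    rw [sum_add_distrib]
    refine add_le_add_right ?_ _
    rw [sum_ite_eq']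
    split_ifs
    · exact le_rfl
    · exact Nat.cast_nonneg _
  have h4 : c2 * ∑ w ∈ A, cO X.G X.bl u w ≤ ∑ w ∈ A, cO F X.bl u w +
      ((X.d : ℝ) ^ (185 / 100 : ℝ) + X.d) := by
    rw [← sum_sdiff hsub, ← sum_sdiff hsub, mul_add]
    linarith
  have h5 : ∑ w ∈ A, cO F X.bl u w ≤ ∑ w ∈ A, cO H X.bl u w + 10 * X.d := by
    have h6 : ∑ w ∈ A, cO F X.bl u w ≤ ∑ w ∈ A, (cO H X.bl u w +
        rr (fun w z => R.Adj u z ∧ X.G.Adj w z) w +
        rr (fun w z => X.G.Adj u z ∧ R.Adj w z) w) := sum_le_sum fun w _ => loseC h u w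
    rw [sum_add_distrib, sum_add_distrib] at h6
    have h7 : ∀ Λ : W → W → Prop, ∑ w ∈ A, rr Λ w ≤ ng Λ := by
      intro Λ
      rw [ng_rr]
      exact sum_le_sum_of_subset_of_nonneg (subset_univ _) fun v _ _ => rr_nn Λ v
    have h8 := loseT h u
    linarith [h7 (fun w z => R.Adj u z ∧ X.G.Adj w z), h7 (fun w z => X.G.Adj u z ∧ R.Adj w z)]
  linarith

/-- the situation from `Oob` -/
theorem ohy (X : Dat W B) {M : ℕ} {C ζ θ c : ℝ} (hE : Env X M C ζ θ c) (k : ℕ) (σ : Fin 6 → ℝ)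
    (bs fl : Fin 6 → Finset ℕ) (ρ ρ1 ρ5 c2 K1 : ℝ) (hc2 : 0 ≤ c2) (hc2' : c2 ≤ 1) (Y : Arcs W)
    (MO MI M5 : Finset W) (hc : Cells k σ bs fl) (hO : Oob X k σ bs fl ρ ρ1 ρ5 c2 K1 Y MO MI M5)
    (co : W → W → Fin 6) (R : SimpleGraph W) (cl : W → W → Fin 6) (cs : ∀ v w, co v w = co w v)
    (hb : ∀ v w, Y.ar v w → ∀ j, Y.ce v w ∈ bs j → co v w = j)
    (hR : ∀ x, (nb R x).card ≤ 5) (j : Fin 6) :
    ∃ i, Ohy X (X.HH co R cl j) (Y.cg {i}) R c2 K1 := by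
  obtain ⟨i, hi⟩ := hc.ne j
  have hik : i < 2 ^ k := mem_range.1 (hc.bsr j hi)
  have hF : ∀ v w, (Y.cg {i}).Adj v w → X.FO.Adj v w ∧ co v w = j := by
    intro v w h
    rcases h.2 with h2 | h2
    · refine ⟨(hO.arF v w).2 (Or.inl h2.1), hb v w h2.1 j ?_⟩
      rw [mem_singleton.1 h2.2]
      exact hi
    · refine ⟨(hO.arF v w).2 (Or.inr h2.1), (cs v w).trans (hb w v h2.1 j ?_)⟩
      rw [mem_singleton.1 h2.2]
      exact hi
  exact ⟨i, ⟨fun v w h1 h2 => Or.inl ⟨(hF v w h1).1, (hF v w h1).2, (cs w v).trans (hF v w h1).2,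
    h2⟩, fun v w h1 => (hF v w h1).1.1, hR, hE.reg, hc2, hc2', hO.f6 i hik, hO.f6' i hik,
    hO.f7 i hik, hO.f8 i hik⟩⟩

end Pool.Agent.Work.MP_db9399_shr_helper31
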