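import Pool.Agent.Work.MP_db9399_shr_helper31.F45
import Pool.Agent.Work.MP_db9399_shr_helper31.F678

/-!
# MP_db9399, SHR (helper31): shares of all classes, if the sides satisfy certain tests
-/

set_option autoImplicit false
set_option linter.unusedSectionVars false

namespace Pool.Agent.Work.MP_db9399_shr_helper31

open Finset Classical
open Pool.Agent.Work.MP_db9399_ts
open Pool.Agent.Work.MP_db9399_all (nb)
open Pool.Agent.Work.MP_db9399_sg (nsd)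
open Pool.Agent.Work.MP_db9399_clj.helper75 (OO blk nB eE cO lgF scO scB scV Shr)

universe u

theorem pw (a b ε : ℝ) (hab : a < b) (hε : 0 < ε) :
    ∀ᶠ d : ℕ in Filter.atTop, (d : ℝ) ^ a ≤ ε * (d : ℝ) ^ b := by
  have hN : Filter.Tendsto (fun d : ℕ => (d : ℝ)) Filter.atTop Filter.atTop :=
    tendsto_natCast_atTop_atTop
  have h1 : Filter.Tendsto (fun d : ℕ => (d : ℝ) ^ (-(b - a))) Filter.atTop (nhds 0) :=
    (tendsto_rpow_neg_atTop (by linarith)).comp hN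
  filter_upwards [h1.eventually (ge_mem_nhds hε), Filter.eventually_gt_atTop 0] with d hd hd0
  have hd0' : (0 : ℝ) < d := by exact_mod_cast hd0
  have h2 : (d : ℝ) ^ a = (d : ℝ) ^ (-(b - a)) * (d : ℝ) ^ b := by
    rw [← Real.rpow_add hd0']
    congr 1
    ring
  rw [h2]
  exact mul_le_mul_of_nonneg_right hd (by positivity)

theorem lg2 (a b ε : ℝ) (hab : a < b) (hε : 0 < ε) :
    ∀ᶠ d : ℕ in Filter.atTop, Real.log d ^ 2 * (d : ℝ) ^ a ≤ ε * (d : ℝ) ^ b := by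
  have hN : Filter.Tendsto (fun d : ℕ => (d : ℝ)) Filter.atTop Filter.atTop :=
    tendsto_natCast_atTop_atTop
  have hr : 0 < (b - a) / 2 := by linarith
  have h1 := ((isLittleO_log_rpow_atTop hr).comp_tendsto hN).bound (Real.sqrt_pos.2 hε)
  filter_upwards [h1, Filter.eventually_gt_atTop 0] with d hd hd0
  have hd0' : (0 : ℝ) < d := by exact_mod_cast hd0
  simp only [Function.comp_apply, Real.norm_eq_abs] at hd
  have h3 : (0 : ℝ) < (d : ℝ) ^ ((b - a) / 2) := Real.rpow_pos_of_pos hd0' _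
  rw [abs_of_pos h3] at hd
  have h4 : Real.log d ^ 2 ≤ ε * ((d : ℝ) ^ ((b - a) / 2)) ^ 2 := by
    have h5 := pow_le_pow_left₀ (abs_nonneg _) hd 2
    rw [sq_abs, mul_pow, Real.sq_sqrt hε.le] at h5
    exact h5
  have h5 : ((d : ℝ) ^ ((b - a) / 2)) ^ 2 * (d : ℝ) ^ a = (d : ℝ) ^ b := by
    rw [sq, ← Real.rpow_add hd0', ← Real.rpow_add hd0']
    congr 1
    ring
  calc Real.log d ^ 2 * (d : ℝ) ^ a ≤ ε * ((d : ℝ) ^ ((b - a) / 2)) ^ 2 * (d : ℝ) ^ a :=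
        mul_le_mul_of_nonneg_right h4 (by positivity)
    _ = ε * (d : ℝ) ^ b := by rw [mul_assoc, h5]

/-- conditions on `d` -/
structure Bg (d M : ℕ) (C c0 c2 K4 : ℝ) : Prop where
  b1 : 2 * (d : ℝ) ^ (7 / 10 : ℝ) + (d : ℝ) ^ (8 / 10 : ℝ) + E1 d + |K4| + 5 ≤
    c0 / 2 * (d : ℝ) ^ (9 / 10 : ℝ)
  b2 : 3 * ((d : ℝ) ^ (17 / 10 : ℝ) + (d : ℝ) ^ (16 / 10 : ℝ) + E2 d C) + (M + 1) * d ≤
    c0 / 2 * (d : ℝ) ^ (19 / 10 : ℝ)
  b3 : 20 ≤ c2 * (d : ℝ) ^ (9 / 10 : ℝ)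
  b4 : (d : ℝ) ^ (185 / 100 : ℝ) + 11 * d ≤ (d : ℝ) ^ (19 / 10 : ℝ)
  d216 : 216 ≤ d
  dC : C ≤ d

theorem bg_ex (M : ℕ) (C c0 c2 K4 : ℝ) (hC : 0 ≤ C) (h0 : 0 < c0) (h2 : 0 < c2) :
    ∃ d0 : ℕ, ∀ d, d0 ≤ d → Bg d M C c0 c2 K4 := by
  have e0 : 0 < c0 / 100 := by linarith
  have a1 := pw (7 / 10) (9 / 10) (c0 / 100) (by norm_num) e0
  have a2 := pw (8 / 10) (9 / 10) (c0 / 100) (by norm_num) e0
  have a3 := lg2 (1 / 2) (9 / 10) (c0 / 100) (by norm_num) e0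
  have a4 := pw 0 (9 / 10) (c0 / 100 / (|K4| + 5)) (by norm_num)
    (by have := abs_nonneg K4; positivity)
  have a5 := pw (17 / 10) (19 / 10) (c0 / 100) (by norm_num) e0
  have a6 := pw (16 / 10) (19 / 10) (c0 / 100) (by norm_num) e0
  have a7 := lg2 (3 / 2) (19 / 10) (c0 / 100 / (2 * Real.sqrt C + C + 1)) (by norm_num)
    (by have := Real.sqrt_nonneg C; positivity)
  have a8 := pw 1 (19 / 10) (c0 / 100 / (M + 1)) (by norm_num) (by positivity)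
  have a9 := pw 0 (9 / 10) (c2 / 20) (by norm_num) (by linarith)
  have a10 := pw (185 / 100) (19 / 10) (1 / 2) (by norm_num) (by norm_num)
  have a11 := pw 1 (19 / 10) (1 / 22) (by norm_num) (by norm_num)
  obtain ⟨dC, hdC⟩ := exists_nat_ge C
  obtain ⟨d0, hd0⟩ := Filter.eventually_atTop.1 ((((a1.and a2).and (a3.and a4)).and
    ((a5.and a6).and (a7.and a8))).and ((a9.and (a10.and a11)).and
    ((Filter.eventually_ge_atTop 216).and (Filter.eventually_ge_atTop dC))))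
  refine ⟨d0, fun d hd => ?_⟩
  obtain ⟨⟨⟨⟨b1, b2⟩, b3, b4⟩, ⟨b5, b6⟩, b7, b8⟩, ⟨b9, b10, b11⟩, b12, b13⟩ := hd0 d hd
  have hd1 : (1 : ℝ) ≤ d := by exact_mod_cast (by omega : 1 ≤ d)
  have hd0' : (0 : ℝ) < d := by linarith
  rw [Real.rpow_zero] at b4 b9
  rw [Real.rpow_one] at b8 b11
  have hK : 0 < |K4| + 5 := by have := abs_nonneg K4; linarith
  have hs : Real.sqrt d = (d : ℝ) ^ (1 / 2 : ℝ) := Real.sqrt_eq_rpow _
  have hE1 : E1 d ≤ 2 * (Real.log d ^ 2 * (d : ℝ) ^ (1 / 2 : ℝ)) := by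
    unfold E1
    rw [hs]
    have h3 : (1 : ℝ) ≤ (d : ℝ) ^ (1 / 2 : ℝ) := Real.one_le_rpow hd1 (by norm_num)
    have h4 := mul_le_mul_of_nonneg_left (by linarith :
      (d : ℝ) ^ (1 / 2 : ℝ) + 1 ≤ 2 * (d : ℝ) ^ (1 / 2 : ℝ)) (sq_nonneg (Real.log d))
    linarith
  have hE2 : E2 d C ≤ (2 * Real.sqrt C + C + 1) * (Real.log d ^ 2 * (d : ℝ) ^ (3 / 2 : ℝ)) := by
    unfold E2
    have h3 : Real.sqrt (C * (d : ℝ) ^ 3) = Real.sqrt C * (d : ℝ) ^ (3 / 2 : ℝ) := by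
      rw [Real.sqrt_mul hC, Real.sqrt_eq_rpow ((d : ℝ) ^ 3), ← Real.rpow_natCast,
        ← Real.rpow_mul hd0'.le]
      norm_num
    have h4 : (d : ℝ) ≤ (d : ℝ) ^ (3 / 2 : ℝ) := by
      calc (d : ℝ) = (d : ℝ) ^ (1 : ℝ) := (Real.rpow_one _).symm
        _ ≤ (d : ℝ) ^ (3 / 2 : ℝ) := Real.rpow_le_rpow_of_exponent_le hd1 (by norm_num)
    rw [h3]
    have h5 : 2 * (Real.sqrt C * (d : ℝ) ^ (3 / 2 : ℝ)) + C * d ≤
        (2 * Real.sqrt C + C + 1) * (d : ℝ) ^ (3 / 2 : ℝ) := by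
      have h6 := mul_le_mul_of_nonneg_left h4 hC
      have h7 : 0 ≤ (d : ℝ) ^ (3 / 2 : ℝ) := by positivity
      linarith
    have h6 := mul_le_mul_of_nonneg_left h5 (sq_nonneg (Real.log d))
    linarith
  have hsC := Real.sqrt_nonneg C
  have hb7 : (2 * Real.sqrt C + C + 1) * (Real.log d ^ 2 * (d : ℝ) ^ (3 / 2 : ℝ)) ≤
      c0 / 100 * (d : ℝ) ^ (19 / 10 : ℝ) := by
    have h3 := mul_le_mul_of_nonneg_left b7 (by positivity : (0 : ℝ) ≤ 2 * Real.sqrt C + C + 1)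
    refine h3.trans (le_of_eq ?_)
    have : 2 * Real.sqrt C + C + 1 ≠ 0 := by positivity
    field_simp
  have hb8 : ((M : ℝ) + 1) * d ≤ c0 / 100 * (d : ℝ) ^ (19 / 10 : ℝ) := by
    have h3 := mul_le_mul_of_nonneg_left b8 (by positivity : (0 : ℝ) ≤ (M : ℝ) + 1)
    refine h3.trans (le_of_eq ?_)
    field_simp
  have hb4 : |K4| + 5 ≤ c0 / 100 * (d : ℝ) ^ (9 / 10 : ℝ) := by
    have h3 := mul_le_mul_of_nonneg_left b4 hK.le
    rw [mul_one] at h3
    refine h3.trans (le_of_eq ?_)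
    field_simp
  have h9 : (0 : ℝ) ≤ c0 * (d : ℝ) ^ (9 / 10 : ℝ) := by positivity
  have h19 : (0 : ℝ) ≤ c0 * (d : ℝ) ^ (19 / 10 : ℝ) := by positivity
  have hCd : C ≤ d := hdC.trans (by exact_mod_cast b13)
  exact ⟨by linarith, by linarith, by linarith, by linarith, b12, hCd⟩

theorem stmt_SHR : Stmt_SHR.{u} := by
  intro c1 c2 h1 h1' h2 h2'
  have hc0 : 0 < c1 * c2 / 16 := by positivity
  have hc01 : c1 * c2 / 16 ≤ c1 / 16 := by
    have := mul_le_mul_of_nonneg_left h2' h1.le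
    linarith
  have hc02 : c1 * c2 / 16 ≤ c2 / 16 := by
    have := mul_le_mul_of_nonneg_right h1' h2.le
    linarith
  refine ⟨c1 * c2 / 16, hc0, by linarith, ?_⟩
  intro M k C K1 K4 ρ ρ1 ρ5 c hC hc hc'
  obtain ⟨d0, hd0⟩ := bg_ex M C (c1 * c2 / 16) c2 K4 (by linarith) hc0 h2
  refine ⟨d0, ?_⟩
  intro W B _ _ X gr t σ bs fl Y MO MI M5 th pt cl cl' co R hd ht ht' hE hGr hfas hCe hO sym _ hP
    hS cs hb hR5 hR
  have hB := hd0 X.d hd
  set c0 := c1 * c2 / 16 with hc0d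
  have hd1 : (1 : ℝ) ≤ X.d := by
    have := hB.d216
    exact_mod_cast (by omega : 1 ≤ X.d)
  have hdp : (0 : ℝ) < X.d := by linarith
  have ht0 : 0 < t := lt_of_lt_of_le (Real.rpow_pos_of_pos hdp _) ht
  -- sizes
  have htd : (X.d : ℝ) ^ (9 / 10 : ℝ) ≤ t * X.d := by
    have h3 : (X.d : ℝ) ^ (9 / 10 : ℝ) = (X.d : ℝ) ^ (-(1 / 10) : ℝ) * X.d := by
      nth_rw 3 [← Real.rpow_one (X.d : ℝ)]
      rw [← Real.rpow_add hdp]
      norm_num
    rw [h3]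
    exact mul_le_mul_of_nonneg_right ht hdp.le
  have htd2 : (X.d : ℝ) ^ (19 / 10 : ℝ) ≤ t * (X.d : ℝ) ^ 2 := by
    have h3 : (X.d : ℝ) ^ (19 / 10 : ℝ) = (X.d : ℝ) ^ (-(1 / 10) : ℝ) * (X.d : ℝ) ^ 2 := by
      rw [← Real.rpow_natCast (X.d : ℝ) 2, ← Real.rpow_add hdp]
      norm_num
    rw [h3]
    exact mul_le_mul_of_nonneg_right ht (by positivity)
  have q1 : c0 / 2 * (X.d : ℝ) ^ (9 / 10 : ℝ) ≤ c0 * t * X.d / 2 := by
    have := mul_le_mul_of_nonneg_left htd (by linarith : (0 : ℝ) ≤ c0 / 2)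
    linarith
  have q2 : c0 / 2 * (X.d : ℝ) ^ (19 / 10 : ℝ) ≤ c0 * t * (X.d : ℝ) ^ 2 / 2 := by
    have := mul_le_mul_of_nonneg_left htd2 (by linarith : (0 : ℝ) ≤ c0 / 2)
    linarith
  have n7 : (0 : ℝ) ≤ (X.d : ℝ) ^ (7 / 10 : ℝ) := by positivity
  have n8 : (0 : ℝ) ≤ (X.d : ℝ) ^ (8 / 10 : ℝ) := by positivity
  have n16 : (0 : ℝ) ≤ (X.d : ℝ) ^ (16 / 10 : ℝ) := by positivity
  have n17 : (0 : ℝ) ≤ (X.d : ℝ) ^ (17 / 10 : ℝ) := by positivity
  have nE1 : 0 ≤ E1 X.d := by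
    unfold E1
    positivity
  have nE2 : 0 ≤ E2 X.d C := by
    unfold E2
    positivity
  have nK := abs_nonneg K4
  have nM : (0 : ℝ) ≤ M * X.d := by positivity
  have B1 := hB.b1
  have B2 := hB.b2
  refine ⟨_, _, inferInstance, inferInstance, fun q v => rr (ΛT X t gr th pt cl q) v,
    ΓT X gr th pt cl, fam_ΛT X hE hB.dC hB.d216 t gr th pt cl, fun q v w => ?_,
    fun q v w h => ?_, ΓT_sp X hE hB.dC hB.d216 gr th pt cl sym,
    ΓT_mu X hE hB.dC hB.d216 gr th pt cl sym, fun sd hsd j => ?_⟩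
  · unfold ΓT
    split_ifs <;> norm_num
  · have h3 := ΓT_R4 X gr th pt cl q v w h
    exact ⟨h3.2.1, h3.2.2, h3.1.2.2.2.1⟩
  · have hG := good X hE hB.d216 t gr th pt cl sym sd hsd
    obtain ⟨i, hOh⟩ := ohy X hE k σ bs fl ρ ρ1 ρ5 c2 K1 h2.le h2' Y MO MI M5 hCe hO co R cl' cs hb
      hR j
    have hxO : ∀ x, x ∈ OO X.bl → X.bl x = none := by
      intro x hx
      unfold OO at hx
      simp only [mem_filter, mem_univ, true_and] at hx
      exact hx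
    refine ⟨fun x hx p b hb' => ?_, fun x hx => ?_, fun p b hb' => ?_,
      fun p q b b' hb' hb'' => ?_, fun p b hb' => ?_, fun u hu w hw huw h5 => ?_,
      fun u hu => ?_, fun u hu A hA => ?_, fun y hy => ?_⟩
    · have g := f1 X hE c1 t K4 gr th pt cl cl' co R sd sym hP hS hG j x (hxO x hx) p b hb'
      have g2 : c0 * nB X.G X.bl x b ≤ c1 / 2 * nB X.G X.bl x b :=
        mul_le_mul_of_nonneg_right (by linarith) (Nat.cast_nonneg _)
      linarith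
    · have g := f2 X hE c1 t K4 h1.le gr th pt cl cl' co R sym hP hS j x (hxO x hx)
      have g2 : c0 * ((nb X.G x ∩ scV X.G X.bl (t * X.d) x).card : ℝ) ≤
          c1 * ((nb X.G x ∩ scV X.G X.bl (t * X.d) x).card : ℝ) :=
        mul_le_mul_of_nonneg_right (by linarith) (Nat.cast_nonneg _)
      linarith
    · have g := f3 X hE (by linarith) c1 t K4 gr th pt cl cl' co R sd hP hS hG j p b hb'
      have g2 : c0 * eE X.G (blk X.bl b) (scO X.G X.bl (t * X.d) b) ≤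
          c1 / 2 * eE X.G (blk X.bl b) (scO X.G X.bl (t * X.d) b) :=
        mul_le_mul_of_nonneg_right (by linarith) (eE_nn _ _ _)
      linarith
    · have g := f4 X hE (by linarith) hc (by have := hB.d216; omega) c1 t K4 h1.le h1' gr th hGr
        pt cl cl' co R sd sym hP hS hG j p q b b' hb' hb''
      have g2 : c0 * eE X.Th (blk X.bl b) (blk X.bl b') ≤
          c1 / 16 * eE X.Th (blk X.bl b) (blk X.bl b') :=
        mul_le_mul_of_nonneg_right hc01 (eE_nn _ _ _)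
      have g3 : eE X.Th (blk X.bl b) (blk X.bl b') =
        eE (X.G \ X.Bk) (blk X.bl b) (blk X.bl b') := rfl
      rw [g3] at g g2
      linarith
    · have g := f5 X hE (by linarith) c1 t K4 h1.le h1' gr th hfas pt cl cl' co R sd hP hS hG j
        p b hb'
      have g2 : c0 * eE X.Th (blk X.bl b) (scB X.Th X.bl (t * X.d ^ 2) b) ≤
          c1 / 8 * eE X.Th (blk X.bl b) (scB X.Th X.bl (t * X.d ^ 2) b) :=
        mul_le_mul_of_nonneg_right (by linarith) (eE_nn _ _ _)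
      have g3 : c0 * eE X.Th (blk X.bl b) (scB X.Th X.bl (t * X.d ^ 2) b) ≤
          eE (X.HH co R cl' j) (nsd (X.nd th pt sd j) p.1 p.2)
            (scB X.Th X.bl (t * X.d ^ 2) b) + c0 * t * (X.d : ℝ) ^ 2 / 2 := by
        linarith
      exact g3
    · have g := o6 hOh u hu w hw huw (htd.trans h5)
      have g2 : (X.d : ℝ) ^ (9 / 10 : ℝ) ≤ cO X.G X.bl u w := htd.trans h5
      have g3 := mul_le_mul_of_nonneg_left g2 (by linarith : (0 : ℝ) ≤ c2 / 2)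
      have g4 : c0 * cO X.G X.bl u w ≤ c2 / 2 * cO X.G X.bl u w :=
        mul_le_mul_of_nonneg_right (by linarith) (Nat.cast_nonneg _)
      have B3 := hB.b3
      linarith
    · have g := o6' hOh u hu (t * X.d) htd
      have g2 : c0 * ∑ w ∈ (OO X.bl).filter (fun w => cO X.G X.bl u w < t * X.d),
          cO X.G X.bl u w ≤ c2 * ∑ w ∈ (OO X.bl).filter (fun w => cO X.G X.bl u w < t * X.d),
          cO X.G X.bl u w :=
        mul_le_mul_of_nonneg_right (by linarith) (sum_nonneg fun w _ => Nat.cast_nonneg _)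
      have B4 := hB.b4
      linarith
    · have g := o7 hOh u hu A hA
      have g2 : c0 * ((nb X.G u ∩ lgF X.G X.bl X.d A).card : ℝ) ≤
          c2 * ((nb X.G u ∩ lgF X.G X.bl X.d A).card : ℝ) :=
        mul_le_mul_of_nonneg_right (by linarith) (Nat.cast_nonneg _)
      linarith
    · have g := o8 hOh y hy
      have g2 : c0 * ((nb X.G y ∩ OO X.bl).card : ℝ) ≤
          c2 * ((nb X.G y ∩ OO X.bl).card : ℝ) :=
        mul_le_mul_of_nonneg_right (by linarith) (Nat.cast_nonneg _)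
      linarith

end Pool.Agent.Work.MP_db9399_shr_helper31
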