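import Pool.Agent.Work.MP_db9399_shr_helper31.Fams

/-!
# MP_db9399, SHR, part 4 (helper31): what the tests give
-/

set_option autoImplicit false
set_option linter.unusedSectionVars false

namespace Pool.Agent.Work.MP_db9399_shr_helper31

open Finset Classical
open Pool.Agent.Work.MP_db9399_ts
open Pool.Agent.Work.MP_db9399_all (nb)
open Pool.Agent.Work.MP_db9399_clj.helper75 (OO blk nB eE cO lgF scO scB scV Shr)

universe u

variable {W B : Type u} [Fintype W] [Fintype B]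

/-- error of the tests at one vertex of `O` -/
noncomputable def E1 (d : ℕ) : ℝ := Real.log d ^ 2 * (Real.sqrt d + 1)

/-- error of the other tests -/
noncomputable def E2 (d : ℕ) (C : ℝ) : ℝ :=
  Real.log d ^ 2 * (2 * Real.sqrt (C * (d : ℝ) ^ 3) + C * d)

/-- what the tests give -/
structure SdG (X : Dat W B) (C t : ℝ) (gr th : W → Fin 3) (pt : W → Fin 2) (cl : W → W → Fin 6)
    (sd : W → Bool) : Prop where
  g1 : ∀ q s, X.kd q.2.1 ≠ Kd.S → ng (R1 X th pt cl q) / 2 ≤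
    ng (fun v w => R1 X th pt cl q v w ∧ sd v = s) + E1 X.d
  g3 : ∀ q s, X.kd q.1 ≠ Kd.S → ng (R3 X th pt cl t q) / 2 ≤
    ng (fun v w => R3 X th pt cl t q v w ∧ sd v = s) + E2 X.d C
  g4 : ∀ q s, X.kd q.1 ≠ Kd.S → ng (R4 X gr th pt cl q) / 2 ≤
    ng (fun v w => R4 X gr th pt cl q v w ∧ sd v = s) + E2 X.d C
  g44 : ∀ q s s', X.kd q.1 ≠ Kd.S → X.kd q.2.1 ≠ Kd.S → ng (R4 X gr th pt cl q) / 4 ≤
    ng (fun v w => R4 X gr th pt cl q v w ∧ sd v = s ∧ sd w = s') + E2 X.d C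
  g5 : ∀ q s, X.kd q.1 ≠ Kd.S → ng (R5 X gr th pt cl t q) / 2 ≤
    ng (fun v w => R5 X gr th pt cl t q v w ∧ sd v = s) + E2 X.d C

/-- all linear tests -/
noncomputable def ΛT (X : Dat W B) (t : ℝ) (gr th : W → Fin 3) (pt : W → Fin 2)
    (cl : W → W → Fin 6) :
    ((W × B × Fin 6 × Fin 6) ⊕ (B × Fin 6 × Fin 6)) ⊕
      ((B × B × Fin 6 × Fin 6 × Fin 6) ⊕ (B × Fin 3 × Fin 6 × Fin 6)) → W → W → Prop :=
  Sum.elim (Sum.elim (R1 X th pt cl) (R3 X th pt cl t))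
    (Sum.elim (R4 X gr th pt cl) (R5 X gr th pt cl t))

/-- the bilinear tests -/
noncomputable def ΓT (X : Dat W B) (gr th : W → Fin 3) (pt : W → Fin 2) (cl : W → W → Fin 6)
    (q : B × B × Fin 6 × Fin 6 × Fin 6) (v w : W) : ℝ :=
  if R4 X gr th pt cl q v w ∧ v ∈ X.TS ∧ w ∈ X.TS then 1 else 0

theorem fam_ΛT (X : Dat W B) {M : ℕ} {C ζ θ c : ℝ} (hE : Env X M C ζ θ c) (hC : C ≤ X.d)
    (hd : 216 ≤ X.d) (t : ℝ) (gr th : W → Fin 3) (pt : W → Fin 2) (cl : W → W → Fin 6) :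
    Fam (fun q v => rr (ΛT X t gr th pt cl q) v) X.d 6 := by
  refine RH.fam (RH.mono (n := 4) ?_ (by omega) (by omega))
  exact ((rh1 X hE hC hd th pt cl).sum (rh3 X hE hC hd th pt cl t) (by omega)).sum
    ((rh4 X hE hC hd gr th pt cl).sum (rh5 X hE hC hd gr th pt cl t) (by omega)) (by omega)

/-- the reversed index -/
def sw (q : B × B × Fin 6 × Fin 6 × Fin 6) : B × B × Fin 6 × Fin 6 × Fin 6 :=
  (q.2.1, q.1, q.2.2.2.1, q.2.2.1, q.2.2.2.2)

theorem R4_sw (X : Dat W B) (gr th : W → Fin 3) (pt : W → Fin 2) (cl : W → W → Fin 6)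
    (sym : ∀ v w, cl v w = cl w v) (q : B × B × Fin 6 × Fin 6 × Fin 6) (v w : W) :
    R4 X gr th pt cl (sw q) v w ↔ R4 X gr th pt cl q w v := by
  unfold R4 sw
  simp only
  constructor
  · rintro ⟨h1, h2, h3, h4, h5, h6, h7⟩
    exact ⟨h2, h1, h3.symm, h4.symm, h6, h5, (sym w v).trans h7⟩
  · rintro ⟨h1, h2, h3, h4, h5, h6, h7⟩
    exact ⟨h2, h1, h3.symm, h4.symm, h6, h5, (sym v w).trans h7⟩

theorem two_sq_le (d : ℕ) (hd : 216 ≤ d) : (d : ℝ) ^ 2 + (d : ℝ) ^ 2 ≤ (d : ℝ) ^ (6 : ℝ) := by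
  have hd' : (216 : ℝ) ≤ d := by exact_mod_cast hd
  have h6 : (d : ℝ) ^ (6 : ℝ) = (d : ℝ) ^ 6 := by
    rw [← Real.rpow_natCast]
    norm_num
  rw [h6]
  calc (d : ℝ) ^ 2 + (d : ℝ) ^ 2 = 2 * (d : ℝ) ^ 2 := by ring
    _ ≤ d * (d : ℝ) ^ 2 := mul_le_mul_of_nonneg_right (by linarith) (by positivity)
    _ = (d : ℝ) ^ 3 := by ring
    _ ≤ (d : ℝ) ^ 6 := pow_le_pow_right₀ (by linarith) (by norm_num)

theorem ΓT_R4 (X : Dat W B) (gr th : W → Fin 3) (pt : W → Fin 2) (cl : W → W → Fin 6)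
    (q : B × B × Fin 6 × Fin 6 × Fin 6) (v w : W) (h : ΓT X gr th pt cl q v w ≠ 0) :
    R4 X gr th pt cl q v w ∧ v ∈ X.TS ∧ w ∈ X.TS := by
  by_contra h1
  exact h (if_neg h1)

theorem ΓT_sp (X : Dat W B) {M : ℕ} {C ζ θ c : ℝ} (hE : Env X M C ζ θ c) (hC : C ≤ X.d)
    (hd : 216 ≤ X.d) (gr th : W → Fin 3) (pt : W → Fin 2) (cl : W → W → Fin 6)
    (sym : ∀ v w, cl v w = cl w v) (q : B × B × Fin 6 × Fin 6 × Fin 6) :
    ((univ.filter fun v => ∃ w, ΓT X gr th pt cl q v w ≠ 0 ∨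
      ΓT X gr th pt cl q w v ≠ 0).card : ℝ) ≤ (X.d : ℝ) ^ (6 : ℝ) := by
  have h4 := rh4 X hE hC hd gr th pt cl
  refine le_trans ?_ (two_sq_le X.d hd)
  refine le_trans ?_ (add_le_add (h4.sp q) (h4.sp (sw q)))
  have h1 : (univ.filter fun v => ∃ w, ΓT X gr th pt cl q v w ≠ 0 ∨
      ΓT X gr th pt cl q w v ≠ 0) ⊆ (univ.filter fun v => ∃ w, R4 X gr th pt cl q v w) ∪
      (univ.filter fun v => ∃ w, R4 X gr th pt cl (sw q) v w) := by
    intro v hv
    simp only [mem_union, mem_filter, mem_univ, true_and] at hv ⊢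
    obtain ⟨w, h | h⟩ := hv
    · exact Or.inl ⟨w, (ΓT_R4 X gr th pt cl q v w h).1⟩
    · exact Or.inr ⟨w, (R4_sw X gr th pt cl sym q v w).2 (ΓT_R4 X gr th pt cl q w v h).1⟩
  exact_mod_cast (card_le_card h1).trans (card_union_le _ _)

theorem ΓT_mu (X : Dat W B) {M : ℕ} {C ζ θ c : ℝ} (hE : Env X M C ζ θ c) (hC : C ≤ X.d)
    (hd : 216 ≤ X.d) (gr th : W → Fin 3) (pt : W → Fin 2) (cl : W → W → Fin 6)
    (sym : ∀ v w, cl v w = cl w v) (v : W) :
    ((univ.filter fun q => ∃ w, ΓT X gr th pt cl q v w ≠ 0 ∨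
      ΓT X gr th pt cl q w v ≠ 0).card : ℝ) ≤ (X.d : ℝ) ^ (6 : ℝ) := by
  have h4 := rh4 X hE hC hd gr th pt cl
  refine le_trans ?_ (two_sq_le X.d hd)
  have h2 : (univ.filter fun q => ∃ w, R4 X gr th pt cl q w v).card ≤
      (univ.filter fun q => ∃ w, R4 X gr th pt cl q v w).card :=
    mu_par _ _ sw fun q hq => by
      simp only [mem_filter, mem_univ, true_and] at hq ⊢
      obtain ⟨w, hw⟩ := hq
      exact ⟨sw q, ⟨w, (R4_sw X gr th pt cl sym q v w).2 hw⟩, rfl⟩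
  refine le_trans ?_ (add_le_add (h4.mu v) (h4.mu v))
  have h1 : (univ.filter fun q => ∃ w, ΓT X gr th pt cl q v w ≠ 0 ∨
      ΓT X gr th pt cl q w v ≠ 0) ⊆ (univ.filter fun q => ∃ w, R4 X gr th pt cl q v w) ∪
      (univ.filter fun q => ∃ w, R4 X gr th pt cl q w v) := by
    intro q hq
    simp only [mem_union, mem_filter, mem_univ, true_and] at hq ⊢
    obtain ⟨w, h | h⟩ := hq
    · exact Or.inl ⟨w, (ΓT_R4 X gr th pt cl q v w h).1⟩
    · exact Or.inr ⟨w, (ΓT_R4 X gr th pt cl q w v h).1⟩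
  have h3 := (card_le_card h1).trans (card_union_le _ _)
  exact_mod_cast h3.trans (Nat.add_le_add_left h2 _)

theorem mem_TS (X : Dat W B) (v : W) (b : B) (hv : X.bl v = some b) (hb : X.kd b ≠ Kd.S) :
    v ∈ X.TS := by
  unfold Dat.TS
  simp only [mem_filter, mem_univ, true_and]
  exact ⟨b, hv, hb⟩

theorem rr_le_deg (X : Dat W B) {M : ℕ} {C ζ θ c : ℝ} (hE : Env X M C ζ θ c)
    (Λ : W → W → Prop) (h : ∀ v w, Λ v w → X.G.Adj v w) (v : W) : rr Λ v ≤ X.d := by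
  unfold rr
  rw [← hE.reg v]
  exact_mod_cast card_le_card fun w hw => by
    unfold nb
    simp only [mem_filter, mem_univ, true_and] at hw ⊢
    exact h v w hw

/-- numbers of pairs -/
theorem ng_blk (X : Dat W B) {M : ℕ} {C ζ θ c : ℝ} (hE : Env X M C ζ θ c)
    (Λ : W → W → Prop) (b : B) (hb : ∀ v w, Λ v w → X.bl v = some b)
    (h : ∀ v w, Λ v w → X.G.Adj v w) : ng Λ ≤ C * (X.d : ℝ) ^ 2 := by
  have h1 := ng_le_card Λ (blk X.bl b) X.d (fun v w hvw => by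
    unfold blk
    simp only [mem_filter, mem_univ, true_and]
    exact hb v w hvw) (rr_le_deg X hE Λ h)
  refine h1.trans ?_
  calc ((blk X.bl b).card : ℝ) * X.d ≤ (C * X.d) * X.d :=
        mul_le_mul_of_nonneg_right (hE.sz b).2 (Nat.cast_nonneg _)
    _ = C * (X.d : ℝ) ^ 2 := by ring

theorem err_le (d : ℕ) (C : ℝ) (hd : 0 < d) (n : ℝ) (hn : 0 ≤ n)
    (h : n ≤ C * (d : ℝ) ^ 2) : Real.log d ^ 2 * (2 * Real.sqrt (d * n) + n / d) ≤ E2 d C := by
  have hd' : (0 : ℝ) < d := by exact_mod_cast hd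
  unfold E2
  refine mul_le_mul_of_nonneg_left (add_le_add ?_ ?_) (sq_nonneg _)
  · refine mul_le_mul_of_nonneg_left (Real.sqrt_le_sqrt ?_) (by norm_num)
    calc d * n ≤ d * (C * (d : ℝ) ^ 2) := mul_le_mul_of_nonneg_left h hd'.le
      _ = C * (d : ℝ) ^ 3 := by ring
  · rw [div_le_iff₀ hd']
    calc n ≤ C * (d : ℝ) ^ 2 := h
      _ = C * d * d := by ring

theorem err_le' (d : ℕ) (C : ℝ) (hd : 0 < d) (n : ℝ) (hn : 0 ≤ n)
    (h : n ≤ C * (d : ℝ) ^ 2) : Real.log d ^ 2 * (Real.sqrt (d * n) + n / d) ≤ E2 d C := by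
  refine le_trans ?_ (err_le d C hd n hn h)
  refine mul_le_mul_of_nonneg_left ?_ (sq_nonneg _)
  linarith [Real.sqrt_nonneg (d * n)]

/-- `SdG` from the tests -/
theorem good (X : Dat W B) {M : ℕ} {C ζ θ c : ℝ} (hE : Env X M C ζ θ c)
    (hd : 216 ≤ X.d) (t : ℝ) (gr th : W → Fin 3) (pt : W → Fin 2) (cl : W → W → Fin 6)
    (sym : ∀ v w, cl v w = cl w v) (sd : W → Bool)
    (h : SidT X.TS X.d (fun q v => rr (ΛT X t gr th pt cl q) v) (ΓT X gr th pt cl) sd) :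
    SdG X C t gr th pt cl sd := by
  have hd0 : 0 < X.d := by omega
  have hd' : (0 : ℝ) < X.d := by exact_mod_cast hd0
  refine ⟨fun q s hk => ?_, fun q s hk => ?_, fun q s hk => ?_, fun q s s' hk hk' => ?_,
    fun q s hk => ?_⟩
  · have h1 := lin_gen (R1 X th pt cl q) sd X.TS X.d 1
      (fun v w hvw => mem_TS X v q.2.1 hvw.2.2.2.1 hk) (fun v => by
        unfold rr
        exact_mod_cast card_le_one.2 fun w hw w' hw' => by
          simp only [mem_filter, mem_univ, true_and] at hw hw'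
          rw [hw.1, hw'.1]) s (h.lin (Sum.inl (Sum.inl q)) s)
    refine h1.trans (add_le_add (le_refl _) ?_)
    have h2 : ng (R1 X th pt cl q) ≤ X.d := by
      have h3 := ng_star (fun v => X.bl q.1 = none ∧ X.G.Adj q.1 v ∧ X.bl v = some q.2.1 ∧
        X.lab th pt v = q.2.2.1 ∧ cl v q.1 = q.2.2.2) q.1
      have h4 : ng (R1 X th pt cl q) = ng (fun v w => w = q.1 ∧ (X.bl q.1 = none ∧
        X.G.Adj q.1 v ∧ X.bl v = some q.2.1 ∧ X.lab th pt v = q.2.2.1 ∧ cl v q.1 = q.2.2.2)) :=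
        rfl
      rw [h4, h3, ← hE.reg q.1]
      exact_mod_cast card_le_card fun v hv => by
        unfold nb
        simp only [mem_filter, mem_univ, true_and] at hv ⊢
        exact hv.2.1
    unfold E1
    refine mul_le_mul_of_nonneg_left (add_le_add (Real.sqrt_le_sqrt ?_) ?_) (sq_nonneg _)
    · rw [one_mul]
      exact h2
    · rw [div_le_one hd']
      exact h2
  · have h1 := lin_gen (R3 X th pt cl t q) sd X.TS X.d X.d
      (fun v w hvw => mem_TS X v q.1 hvw.1 hk)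
      (rr_le_deg X hE _ fun v w hvw => hvw.2.2.2.1) s (h.lin (Sum.inl (Sum.inr q)) s)
    exact h1.trans (add_le_add (le_refl _) (err_le' X.d C hd0 _ (ng_nn _)
      (ng_blk X hE _ q.1 (fun v w hvw => hvw.1) fun v w hvw => hvw.2.2.2.1)))
  · have h1 := lin_gen (R4 X gr th pt cl q) sd X.TS X.d X.d
      (fun v w hvw => mem_TS X v q.1 hvw.1 hk)
      (rr_le_deg X hE _ fun v w hvw => hvw.2.2.1.1) s (h.lin (Sum.inr (Sum.inl q)) s)
    exact h1.trans (add_le_add (le_refl _) (err_le' X.d C hd0 _ (ng_nn _)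
      (ng_blk X hE _ q.1 (fun v w hvw => hvw.1) fun v w hvw => hvw.2.2.1.1)))
  · have h1 := bil_gen (R4 X gr th pt cl q) sd X.d X.d
      (rr_le_deg X hE _ fun v w hvw => hvw.2.2.1.1)
      (rr_le_deg X hE _ fun v w hvw => (hvw.2.2.1.1).symm) s s' (ΓT X gr th pt cl q)
      (fun v w => by
        unfold ΓT
        by_cases h2 : R4 X gr th pt cl q v w
        · rw [if_pos ⟨h2, mem_TS X v _ h2.1 hk, mem_TS X w _ h2.2.1 hk'⟩, if_pos h2]
        · rw [if_neg fun h3 => h2 h3.1, if_neg h2]) (h.bil q s s')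
    exact h1.trans (add_le_add (le_refl _) (err_le X.d C hd0 _ (ng_nn _)
      (ng_blk X hE _ q.1 (fun v w hvw => hvw.1) fun v w hvw => hvw.2.2.1.1)))
  · have h1 := lin_gen (R5 X gr th pt cl t q) sd X.TS X.d X.d
      (fun v w hvw => mem_TS X v q.1 hvw.1 hk)
      (rr_le_deg X hE _ fun v w hvw => hvw.2.2.2.1.1) s (h.lin (Sum.inr (Sum.inr q)) s)
    exact h1.trans (add_le_add (le_refl _) (err_le' X.d C hd0 _ (ng_nn _)
      (ng_blk X hE _ q.1 (fun v w hvw => hvw.1) fun v w hvw => hvw.2.2.2.1.1)))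

end Pool.Agent.Work.MP_db9399_shr_helper31
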