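import Pool.Agent.Work.MP_db9399_shr_helper31.Node
import Pool.Agent.Work.MP_db9399_shr_helper31.Good

/-!
# MP_db9399, SHR, part 5 (helper31): the shares `f1`, `f2`, `f3`
-/

set_option autoImplicit false
set_option linter.unusedSectionVars false

namespace Pool.Agent.Work.MP_db9399_shr_helper31

open Finset Classical
open Pool.Agent.Work.MP_db9399_ts
open Pool.Agent.Work.MP_db9399_all (nb)
open Pool.Agent.Work.MP_db9399_sg (nsd)
open Pool.Agent.Work.MP_db9399_clj.helper75 (OO blk nB eE cO lgF scO scB scV Shr)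

universe u

variable {W B : Type u} [Fintype W] [Fintype B]

/-- few changes at the vertices of `O` -/
theorem ch_O (X : Dat W B) (K4 : ℝ) (cl cl' : W → W → Fin 6) (hS : Swp X K4 cl cl') (x : W)
    (hx : X.bl x = none) : ((univ.filter fun v => cl' x v ≠ cl x v).card : ℝ) ≤ |K4| := by
  by_cases hf : X.fr x
  · exact (hS.hub x hf).trans (le_abs_self _)
  · have : (univ.filter fun v => cl' x v ≠ cl x v) = ∅ := by
      rw [eq_empty_iff_forall_notMem]
      intro v hv
      simp only [mem_filter, mem_univ, true_and] at hv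
      rcases (hS.ch x v hv).2 with h | h
      · exact hf h.1
      · exact h.2 hx
    rw [this, card_empty, Nat.cast_zero]
    exact abs_nonneg _

/-- no changes between light vertices -/
theorem ch_L (X : Dat W B) (K4 : ℝ) (cl cl' : W → W → Fin 6) (hS : Swp X K4 cl cl') (v w : W)
    (hv : X.bl v ≠ none) (hw : X.bl w ≠ none) : cl' v w = cl v w := by
  by_contra h
  rcases (hS.ch v w h).2 with h | h
  · exact hv h.1.1
  · exact hw h.1.1

theorem f1 (X : Dat W B) {M : ℕ} {C ζ θ c : ℝ} (hE : Env X M C ζ θ c) (c1 t K4 : ℝ)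
    (gr th : W → Fin 3) (pt : W → Fin 2) (cl cl' co : W → W → Fin 6)
    (R : SimpleGraph W) (sd : W → Bool) (sym : ∀ v w, cl v w = cl w v)
    (hP : Prs X gr th pt cl c1 t) (hS : Swp X K4 cl cl') (hG : SdG X C t gr th pt cl sd)
    (j : Fin 6) (x : W) (hx : X.bl x = none) (p : (B × Fin 2) × Bool) (b : B)
    (hb : X.bo j p = some b) :
    c1 / 2 * nB X.G X.bl x b ≤
      ((nb (X.HH co R cl' j) x ∩ nsd (X.nd th pt sd j) p.1 p.2).card : ℝ) +
        ((X.d : ℝ) ^ (7 / 10 : ℝ) + E1 X.d + |K4|) := by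
  obtain ⟨f, hf1, hf2, hf3⟩ := node X hE th pt sd j p b hb
  set A : W → Prop := fun v => X.bl x = none ∧ X.G.Adj x v ∧ X.bl v = some b ∧
    X.lab th pt v = f ∧ cl v x = j with hA
  have h1 := hP.p1 x b f j hx hf1 hf2
  have h2 : (((nb X.G x).filter fun v => X.bl v = some b ∧ X.lab th pt v = f ∧
      cl v x = j).card : ℝ) = cd A := by
    rw [← cd_eq]
    congr 2
    ext v
    unfold nb
    simp only [hA, mem_filter, mem_univ, true_and]
    tauto
  have h3 : cd A / 2 ≤ cd (fun v => A v ∧ (X.kd b ≠ Kd.S → sd v = p.2)) + E1 X.d := by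
    by_cases hk : X.kd b = Kd.S
    · have h5 : cd A ≤ cd (fun v => A v ∧ (X.kd b ≠ Kd.S → sd v = p.2)) :=
        cd_mono fun v hv => ⟨hv, fun h => absurd hk h⟩
      have h7 : 0 ≤ E1 X.d := by
        unfold E1
        positivity
      have h8 := cd_nn A
      linarith
    · have h4 := hG.g1 (x, b, f, j) p.2 hk
      have h6 : ng (R1 X th pt cl (x, b, f, j)) = ng (fun v w => w = x ∧ A v) := rfl
      have h5 : ng (fun v w => R1 X th pt cl (x, b, f, j) v w ∧ sd v = p.2) ≤
          ng (fun v w => w = x ∧ (A v ∧ (X.kd b ≠ Kd.S → sd v = p.2))) :=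
        ng_mono fun v w h => ⟨h.1.1, h.1.2, fun _ => h.2⟩
      rw [h6, ng_star'] at h4
      rw [ng_star'] at h5
      linarith
  have h5 : cd (fun v => A v ∧ (X.kd b ≠ Kd.S → sd v = p.2)) ≤
      ((nb (X.HH co R cl' j) x ∩ nsd (X.nd th pt sd j) p.1 p.2).card : ℝ) + |K4| := by
    have h4 : (univ.filter fun v => A v ∧ (X.kd b ≠ Kd.S → sd v = p.2)) ⊆
        (nb (X.HH co R cl' j) x ∩ nsd (X.nd th pt sd j) p.1 p.2) ∪
          univ.filter fun v => cl' x v ≠ cl x v := by
      intro v hv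
      simp only [mem_filter, mem_univ, true_and, hA] at hv
      obtain ⟨⟨_, g1, g2, g3, g4⟩, g5⟩ := hv
      rw [mem_union]
      by_cases hc : cl' x v = cl x v
      · left
        rw [mem_inter]
        refine ⟨?_, hf3 v g2 g3 g5⟩
        unfold nb
        simp only [mem_filter, mem_univ, true_and]
        exact HH_O X hE co R cl' hS.sym j x v hx (by rw [g2]; simp) g1
          (hc.trans ((sym x v).trans g4))
      · right
        simp only [mem_filter, mem_univ, true_and]
        exact hc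
    have h6 := (card_le_card h4).trans (card_union_le _ _)
    have h7 := ch_O X K4 cl cl' hS x hx
    have h8 : cd (fun v => A v ∧ (X.kd b ≠ Kd.S → sd v = p.2)) ≤
      ((nb (X.HH co R cl' j) x ∩ nsd (X.nd th pt sd j) p.1 p.2).card : ℝ) +
        ((univ.filter fun v => cl' x v ≠ cl x v).card : ℝ) := by
      rw [← cd_eq]
      exact_mod_cast h6
    linarith
  rw [h2] at h1
  have h6 : X.n x b = nB X.G X.bl x b := rfl
  rw [h6] at h1
  have h7 : (0 : ℝ) ≤ (X.d : ℝ) ^ (7 / 10 : ℝ) := by positivity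
  linarith

theorem f2 (X : Dat W B) {M : ℕ} {C ζ θ c : ℝ} (hE : Env X M C ζ θ c) (c1 t K4 : ℝ)
    (hc1 : 0 ≤ c1)
    (gr th : W → Fin 3) (pt : W → Fin 2) (cl cl' co : W → W → Fin 6)
    (R : SimpleGraph W) (sym : ∀ v w, cl v w = cl w v)
    (hP : Prs X gr th pt cl c1 t) (hS : Swp X K4 cl cl')
    (j : Fin 6) (x : W) (hx : X.bl x = none) :
    c1 * ((nb X.G x ∩ scV X.G X.bl (t * X.d) x).card : ℝ) ≤
      ((nb (X.HH co R cl' j) x ∩ scV X.G X.bl (t * X.d) x).card : ℝ) +
        (2 * (X.d : ℝ) ^ (7 / 10 : ℝ) + |K4|) := by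
  -- two labels
  have e1 : ∃ f : Fin 6, f < 3 ∧ j ≠ f := by
    refine ⟨if j = 0 then 1 else 0, ?_, ?_⟩
    · split_ifs <;> decide
    · split_ifs with h
      · rw [h]
        decide
      · exact h
  have e2 : ∃ f : Fin 6, (f = 3 ∨ f = 4) ∧ j ≠ f := by
    refine ⟨if j = 3 then 4 else 3, ?_, ?_⟩
    · split_ifs
      · exact Or.inr rfl
      · exact Or.inl rfl
    · split_ifs with h
      · rw [h]
        decide
      · exact h
  obtain ⟨f, hf3, hjf⟩ := e1
  obtain ⟨f', hf34, hjf'⟩ := e2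
  have hf5 : f ≠ 5 := by
    intro h
    rw [h] at hf3
    exact absurd hf3 (by decide)
  have hf5' : f' ≠ 5 := by
    rcases hf34 with h | h <;> rw [h] <;> decide
  have hff : f ≠ f' := by
    intro h
    rw [h] at hf3
    rcases hf34 with h | h <;> rw [h] at hf3 <;> exact absurd hf3 (by decide)
  have h1 := hP.p2 x f j hx hf5 hjf
  have h2 := hP.p2 x f' j hx hf5' hjf'
  set P : W → Prop := fun v => ∃ b, X.bl v = some b ∧ X.n x b < t * X.d with hPd
  have hsc : ∀ v, v ∈ scV X.G X.bl (t * X.d) x ↔ P v := by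
    intro v
    unfold scV
    simp only [mem_filter, mem_univ, true_and]
    rfl
  have h3 : (nb X.G x ∩ scV X.G X.bl (t * X.d) x) ⊆
      ((nb X.G x).filter fun v => X.kin v f ∧ P v) ∪
        ((nb X.G x).filter fun v => X.kin v f' ∧ P v) := by
    intro v hv
    rw [mem_inter, hsc] at hv
    rw [mem_union, mem_filter, mem_filter]
    obtain ⟨b, hb, _⟩ := hv.2
    by_cases hk : X.kd b = Kd.K
    · exact Or.inl ⟨hv.1, Or.inl ⟨⟨b, hb, hk⟩, hf3⟩, hv.2⟩
    · exact Or.inr ⟨hv.1, Or.inr (Or.inl ⟨⟨b, hb, hk⟩, hf34⟩), hv.2⟩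
  have h4 : ((nb X.G x ∩ scV X.G X.bl (t * X.d) x).card : ℝ) ≤
      (((nb X.G x).filter fun v => X.kin v f ∧ P v).card : ℝ) +
        (((nb X.G x).filter fun v => X.kin v f' ∧ P v).card : ℝ) := by
    exact_mod_cast (card_le_card h3).trans (card_union_le _ _)
  have h5 : ((nb X.G x).filter fun v => X.lab th pt v = f ∧ P v ∧ cl v x = j).card +
      ((nb X.G x).filter fun v => X.lab th pt v = f' ∧ P v ∧ cl v x = j).card ≤
      (nb (X.HH co R cl' j) x ∩ scV X.G X.bl (t * X.d) x).card +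
        (univ.filter fun v => cl' x v ≠ cl x v).card := by
    rw [← card_union_of_disjoint]
    · refine (card_le_card fun v hv => ?_).trans (card_union_le _ _)
      have hv' : X.G.Adj x v ∧ P v ∧ cl v x = j := by
        rw [mem_union, mem_filter, mem_filter] at hv
        unfold nb at hv
        simp only [mem_filter, mem_univ, true_and] at hv
        tauto
      obtain ⟨g1, g2, g3⟩ := hv'
      rw [mem_union]
      by_cases hc : cl' x v = cl x v
      · left
        rw [mem_inter, hsc]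
        refine ⟨?_, g2⟩
        obtain ⟨b, hb, _⟩ := g2
        unfold nb
        simp only [mem_filter, mem_univ, true_and]
        exact HH_O X hE co R cl' hS.sym j x v hx (by rw [hb]; simp) g1
          (hc.trans ((sym x v).trans g3))
      · right
        simp only [mem_filter, mem_univ, true_and]
        exact hc
    · rw [disjoint_left]
      intro v hv hv'
      rw [mem_filter] at hv hv'
      exact hff (hv.2.1.symm.trans hv'.2.1)
  have h6 := ch_O X K4 cl cl' hS x hx
  have h7 : (((nb X.G x).filter fun v => X.lab th pt v = f ∧ P v ∧ cl v x = j).card : ℝ) +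
      (((nb X.G x).filter fun v => X.lab th pt v = f' ∧ P v ∧ cl v x = j).card : ℝ) ≤
      ((nb (X.HH co R cl' j) x ∩ scV X.G X.bl (t * X.d) x).card : ℝ) +
        ((univ.filter fun v => cl' x v ≠ cl x v).card : ℝ) := by
    exact_mod_cast h5
  have h8 := mul_le_mul_of_nonneg_left h4 hc1
  rw [mul_add] at h8
  linarith

theorem f3 (X : Dat W B) {M : ℕ} {C ζ θ c : ℝ} (hE : Env X M C ζ θ c) (hC : 0 ≤ C) (c1 t K4 : ℝ)
    (gr th : W → Fin 3) (pt : W → Fin 2) (cl cl' co : W → W → Fin 6)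
    (R : SimpleGraph W) (sd : W → Bool)
    (hP : Prs X gr th pt cl c1 t) (hS : Swp X K4 cl cl') (hG : SdG X C t gr th pt cl sd)
    (j : Fin 6) (p : (B × Fin 2) × Bool) (b : B) (hb : X.bo j p = some b) :
    c1 / 2 * eE X.G (blk X.bl b) (scO X.G X.bl (t * X.d) b) ≤
      eE (X.HH co R cl' j) (nsd (X.nd th pt sd j) p.1 p.2) (scO X.G X.bl (t * X.d) b) +
        ((X.d : ℝ) ^ (17 / 10 : ℝ) + E2 X.d C + X.d) := by
  obtain ⟨f, hf1, hf2, hf3⟩ := node X hE th pt sd j p b hb
  have h1 : c1 * eE X.G (blk X.bl b) (scO X.G X.bl (t * X.d) b) ≤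
      ng (R3 X th pt cl t (b, f, j)) + (X.d : ℝ) ^ (17 / 10 : ℝ) := hP.p3 b f j hf1 hf2
  have hE2 : 0 ≤ E2 X.d C := by
    unfold E2
    positivity
  have h3 : ng (R3 X th pt cl t (b, f, j)) / 2 ≤
      ng (fun v w => R3 X th pt cl t (b, f, j) v w ∧ (X.kd b ≠ Kd.S → sd v = p.2)) +
        E2 X.d C := by
    by_cases hk : X.kd b = Kd.S
    · have h4 : ng (R3 X th pt cl t (b, f, j)) ≤
          ng (fun v w => R3 X th pt cl t (b, f, j) v w ∧ (X.kd b ≠ Kd.S → sd v = p.2)) :=
        ng_mono fun v w h => ⟨h, fun h' => absurd hk h'⟩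
      have h5 := ng_nn (R3 X th pt cl t (b, f, j))
      linarith
    · have h4 := hG.g3 (b, f, j) p.2 hk
      have h5 : ng (fun v w => R3 X th pt cl t (b, f, j) v w ∧ sd v = p.2) ≤
          ng (fun v w => R3 X th pt cl t (b, f, j) v w ∧ (X.kd b ≠ Kd.S → sd v = p.2)) :=
        ng_mono fun v w h => ⟨h.1, fun _ => h.2⟩
      linarith
  have h4 : ng (fun v w => R3 X th pt cl t (b, f, j) v w ∧ (X.kd b ≠ Kd.S → sd v = p.2)) ≤
      eE (X.HH co R cl' j) (nsd (X.nd th pt sd j) p.1 p.2) (scO X.G X.bl (t * X.d) b) +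
        ng (fun v w => X.bl v = some b ∧ X.LE v w ∧ cl' v w ≠ cl v w) := by
    rw [eE_ng]
    refine ng_le_or fun v w h => ?_
    obtain ⟨⟨g1, g2, g3, g4, g5⟩, g6⟩ := h
    have hw : X.bl w = none := by
      unfold scO OO at g3
      simp only [mem_filter, mem_univ, true_and] at g3
      exact g3.1
    have hv : X.bl v ≠ none := by
      rw [g1]
      simp
    by_cases hc : cl' v w = cl v w
    · left
      exact ⟨hf3 v g1 g2 g6, g3, (HH_O X hE co R cl' hS.sym j w v hw hv g4.symm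
        ((hS.sym w v).trans (hc.trans g5))).symm⟩
    · right
      exact ⟨g1, ⟨((Th_O X hE w v hw).2 g4.symm).symm, fun h => hv h.1⟩, hc⟩
  have h5 : ng (fun v w => X.bl v = some b ∧ X.LE v w ∧ cl' v w ≠ cl v w) ≤ X.d :=
    le_trans (le_of_eq (ng_eq _).symm) (hS.blo b)
  have h7 : (0 : ℝ) ≤ (X.d : ℝ) ^ (17 / 10 : ℝ) := by positivity
  linarith

end Pool.Agent.Work.MP_db9399_shr_helper31
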