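import Pool.Agent.Work.MP_db9399_shr_helper31.F123

/-!
# MP_db9399, SHR, part 6 (helper31): the shares `f4`, `f5`
-/

set_option autoImplicit false
set_option linter.unusedSectionVars false

namespace Pool.Agent.Work.MP_db9399_shr_helper31

open Finset Classical
open Pool.Agent.Work.MP_db9399_ts
open Pool.Agent.Work.MP_db9399_all (nb)
open Pool.Agent.Work.MP_db9399_sg (nsd)
open Pool.Agent.Work.MP_db9399_clj.helper75 (OO blk nB eE cO lgF scO scB scV Shr)

universe u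

variable {W B : Type u} [Fintype W] [Fintype B]

theorem eE_nn (E : SimpleGraph W) (A A' : Finset W) : 0 ≤ eE E A A' := by
  rw [eE_ng]
  exact ng_nn _

/-- many edges with different groups -/
theorem cx_big (X : Dat W B) {c : ℝ} (hc : 0 < c) (gr : W → Fin 3) (hGr : Grp X c gr)
    (hd : 1 ≤ X.d) (b b' : B) (h : (X.d : ℝ) ≤ X.e b b') :
    X.e b b' / 4 ≤ X.cx gr (blk X.bl b) (blk X.bl b') := by
  have hd' : (1 : ℝ) ≤ X.d := by exact_mod_cast hd
  by_cases hcb : X.cb b = X.cb b'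
  · refine hGr.inn b b' hcb (le_trans ?_ h)
    rw [Real.sqrt_le_left (by linarith)]
    nlinarith
  · have h1 : (X.d : ℝ) ^ (1 - 3 * c / 4) ≤ X.e b b' := by
      refine le_trans ?_ h
      calc (X.d : ℝ) ^ (1 - 3 * c / 4) ≤ (X.d : ℝ) ^ (1 : ℝ) :=
            Real.rpow_le_rpow_of_exponent_le hd' (by linarith)
        _ = X.d := Real.rpow_one _
    have h2 := hGr.thk b b' hcb h1
    have h3 : ∀ a a', 0 ≤ X.cg gr (blk X.bl b) (blk X.bl b') a a' := fun a a' => eE_nn _ _ _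
    unfold Dat.cx
    simp only [Fin.sum_univ_three]
    have n01 : (0 : Fin 3) ≠ 1 := by decide
    have n02 : (0 : Fin 3) ≠ 2 := by decide
    have n10 : (1 : Fin 3) ≠ 0 := by decide
    have n12 : (1 : Fin 3) ≠ 2 := by decide
    have n20 : (2 : Fin 3) ≠ 0 := by decide
    have n21 : (2 : Fin 3) ≠ 1 := by decide
    rw [if_neg n01, if_neg n02, if_neg n10, if_neg n12, if_neg n20, if_neg n21]
    simp only [if_true]
    linarith [h2 0 1, h2 0 2, h2 1 0, h3 1 2, h3 2 0, h3 2 1]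

/-- the sides in `R4` -/
theorem side4 (X : Dat W B) (C t : ℝ) (hE2 : 0 ≤ E2 X.d C)
    (gr th : W → Fin 3) (pt : W → Fin 2) (cl : W → W → Fin 6) (sym : ∀ v w, cl v w = cl w v)
    (sd : W → Bool) (hG : SdG X C t gr th pt cl sd) (q : B × B × Fin 6 × Fin 6 × Fin 6)
    (s s' : Bool) : ng (R4 X gr th pt cl q) / 4 ≤
      ng (fun v w => R4 X gr th pt cl q v w ∧ (X.kd q.1 ≠ Kd.S → sd v = s) ∧
        (X.kd q.2.1 ≠ Kd.S → sd w = s')) + E2 X.d C := by
  have h0 := ng_nn (R4 X gr th pt cl q)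
  by_cases hk : X.kd q.1 = Kd.S <;> by_cases hk' : X.kd q.2.1 = Kd.S
  · have h4 : ng (R4 X gr th pt cl q) ≤
        ng (fun v w => R4 X gr th pt cl q v w ∧ (X.kd q.1 ≠ Kd.S → sd v = s) ∧
        (X.kd q.2.1 ≠ Kd.S → sd w = s')) :=
      ng_mono fun v w h => ⟨h, fun h' => absurd hk h', fun h' => absurd hk' h'⟩
    linarith
  · have h4 := hG.g4 (sw q) s' hk'
    have h5 : ng (R4 X gr th pt cl (sw q)) = ng (R4 X gr th pt cl q) := by
      rw [ng_swap (R4 X gr th pt cl q)]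
      exact ng_congr fun v w => R4_sw X gr th pt cl sym q v w
    have h6 : ng (fun v w => R4 X gr th pt cl (sw q) v w ∧ sd v = s') ≤
        ng (fun v w => R4 X gr th pt cl q v w ∧ (X.kd q.1 ≠ Kd.S → sd v = s) ∧
        (X.kd q.2.1 ≠ Kd.S → sd w = s')) := by
      rw [ng_swap]
      exact ng_mono fun v w h => ⟨(R4_sw X gr th pt cl sym q w v).1 h.1, fun h' => absurd hk h',
        fun _ => h.2⟩
    rw [h5] at h4
    linarith
  · have h4 := hG.g4 q s hk
    have h6 : ng (fun v w => R4 X gr th pt cl q v w ∧ sd v = s) ≤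
        ng (fun v w => R4 X gr th pt cl q v w ∧ (X.kd q.1 ≠ Kd.S → sd v = s) ∧
        (X.kd q.2.1 ≠ Kd.S → sd w = s')) :=
      ng_mono fun v w h => ⟨h.1, fun _ => h.2, fun h' => absurd hk' h'⟩
    linarith
  · have h4 := hG.g44 q s s' hk hk'
    have h6 : ng (fun v w => R4 X gr th pt cl q v w ∧ sd v = s ∧ sd w = s') ≤
        ng (fun v w => R4 X gr th pt cl q v w ∧ (X.kd q.1 ≠ Kd.S → sd v = s) ∧
        (X.kd q.2.1 ≠ Kd.S → sd w = s')) :=
      ng_mono fun v w h => ⟨h.1, fun _ => h.2.1, fun _ => h.2.2⟩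
    linarith

theorem f4 (X : Dat W B) {M : ℕ} {C ζ θ c : ℝ} (hE : Env X M C ζ θ c) (hC : 0 ≤ C)
    (hc : 0 < c) (hd : 1 ≤ X.d) (c1 t K4 : ℝ) (hc1 : 0 ≤ c1) (hc1' : c1 ≤ 1)
    (gr th : W → Fin 3) (hGr : Grp X c gr) (pt : W → Fin 2) (cl cl' co : W → W → Fin 6)
    (R : SimpleGraph W) (sd : W → Bool) (sym : ∀ v w, cl v w = cl w v)
    (hP : Prs X gr th pt cl c1 t) (hS : Swp X K4 cl cl') (hG : SdG X C t gr th pt cl sd)
    (j : Fin 6) (p q : (B × Fin 2) × Bool) (b b' : B) (hb : X.bo j p = some b)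
    (hb' : X.bo j q = some b') :
    c1 / 16 * eE X.Th (blk X.bl b) (blk X.bl b') ≤
      eE (X.HH co R cl' j) (nsd (X.nd th pt sd j) p.1 p.2) (nsd (X.nd th pt sd j) q.1 q.2) +
        ((X.d : ℝ) ^ (17 / 10 : ℝ) + E2 X.d C + X.d) := by
  have hd' : (1 : ℝ) ≤ X.d := by exact_mod_cast hd
  have hE2 : 0 ≤ E2 X.d C := by
    unfold E2
    positivity
  have h17 : (0 : ℝ) ≤ (X.d : ℝ) ^ (17 / 10 : ℝ) := by positivity
  have he0 := eE_nn X.Th (blk X.bl b) (blk X.bl b')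
  have hH0 := eE_nn (X.HH co R cl' j) (nsd (X.nd th pt sd j) p.1 p.2)
    (nsd (X.nd th pt sd j) q.1 q.2)
  by_cases he : eE X.Th (blk X.bl b) (blk X.bl b') < X.d
  · have : c1 / 16 * eE X.Th (blk X.bl b) (blk X.bl b') ≤
        1 * eE X.Th (blk X.bl b) (blk X.bl b') :=
      mul_le_mul_of_nonneg_right (by linarith) he0
    linarith
  · push Not at he
    obtain ⟨f, hf1, hf2, hf3⟩ := node X hE th pt sd j p b hb
    obtain ⟨f', hf1', hf2', hf3'⟩ := node X hE th pt sd j q b' hb'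
    have h1 : c1 * X.cx gr (blk X.bl b) (blk X.bl b') ≤
        ng (R4 X gr th pt cl (b, b', f, f', j)) + (X.d : ℝ) ^ (17 / 10 : ℝ) :=
      hP.p4 b b' f f' j hf1 hf1' hf2 hf2' fun _ => he
    have h2 := cx_big X hc gr hGr hd b b' he
    have h3 := side4 X C t hE2 gr th pt cl sym sd hG (b, b', f, f', j) p.2 q.2
    have h4 : ng (fun v w => R4 X gr th pt cl (b, b', f, f', j) v w ∧
        (X.kd b ≠ Kd.S → sd v = p.2) ∧ (X.kd b' ≠ Kd.S → sd w = q.2)) ≤
        eE (X.HH co R cl' j) (nsd (X.nd th pt sd j) p.1 p.2)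
          (nsd (X.nd th pt sd j) q.1 q.2) := by
      rw [eE_ng]
      refine ng_mono fun v w h => ?_
      obtain ⟨⟨g1, g2, g3, g4, g5, g6, g7⟩, g8, g9⟩ := h
      have hv : X.bl v ≠ none := by
        rw [g1]
        simp
      have hw : X.bl w ≠ none := by
        rw [g2]
        simp
      exact ⟨hf3 v g1 g5 g8, hf3' w g2 g6 g9, HH_L X co R cl' hS.sym j v w hv g3
        ((ch_L X K4 cl cl' hS v w hv hw).trans g7)⟩
    have h5 : X.e b b' = eE X.Th (blk X.bl b) (blk X.bl b') := rfl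
    rw [h5] at h2
    have h6 := mul_le_mul_of_nonneg_left h2 hc1
    simp only at h3
    linarith

/-- union bound -/
theorem ng_ex {ι : Type u} (S : Finset ι) (Λ : ι → W → W → Prop) :
    ng (fun v w => ∃ i ∈ S, Λ i v w) ≤ ∑ i ∈ S, ng (Λ i) := by
  unfold ng
  rw [← Nat.cast_sum]
  refine Nat.cast_le.2 (le_trans (card_le_card fun p hp => ?_) card_biUnion_le)
  simp only [mem_filter, mem_univ, true_and] at hp
  obtain ⟨i, hi, h⟩ := hp
  rw [mem_biUnion]
  exact ⟨i, hi, by simp only [mem_filter, mem_univ, true_and]; exact h⟩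

/-- at most `M` blocks in a cluster -/
theorem card_cl (X : Dat W B) {M : ℕ} {C ζ θ c : ℝ} (hE : Env X M C ζ θ c) (b : B) :
    (univ.filter fun b' => X.cb b' = X.cb b).card ≤ M := by
  calc (univ.filter fun b' => X.cb b' = X.cb b).card ≤ (range M).card :=
        card_le_card_of_injOn X.ix (fun b' _ => by
          rw [mem_coe, mem_range]
          exact hE.ixM b') (fun b1 h1 b2 h2 h => by
          rw [mem_coe, mem_filter] at h1 h2
          exact hE.ixi b1 b2 (h1.2.trans h2.2.symm) h)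
    _ = M := card_range M

/-- the sides in `R5` -/
theorem side5 (X : Dat W B) (C t : ℝ) (hE2 : 0 ≤ E2 X.d C)
    (gr th : W → Fin 3) (pt : W → Fin 2) (cl : W → W → Fin 6)
    (sd : W → Bool) (hG : SdG X C t gr th pt cl sd) (q : B × Fin 3 × Fin 6 × Fin 6)
    (s : Bool) : ng (R5 X gr th pt cl t q) / 2 ≤
      ng (fun v w => R5 X gr th pt cl t q v w ∧ (X.kd q.1 ≠ Kd.S → sd v = s)) + E2 X.d C := by
  have h0 := ng_nn (R5 X gr th pt cl t q)
  by_cases hk : X.kd q.1 = Kd.S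
  · have h4 : ng (R5 X gr th pt cl t q) ≤
        ng (fun v w => R5 X gr th pt cl t q v w ∧ (X.kd q.1 ≠ Kd.S → sd v = s)) :=
      ng_mono fun v w h => ⟨h, fun h' => absurd hk h'⟩
    linarith
  · have h4 := hG.g5 q s hk
    have h6 : ng (fun v w => R5 X gr th pt cl t q v w ∧ sd v = s) ≤
        ng (fun v w => R5 X gr th pt cl t q v w ∧ (X.kd q.1 ≠ Kd.S → sd v = s)) :=
      ng_mono fun v w h => ⟨h.1, fun _ => h.2⟩
    linarith

theorem kf_inj (i i' : Fin 3) (h : kf i = kf i') : i = i' := by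
  unfold kf at h
  fin_cases i <;> fin_cases i' <;> first | rfl | (simp at h)

theorem f5 (X : Dat W B) {M : ℕ} {C ζ θ c : ℝ} (hE : Env X M C ζ θ c) (hC : 0 ≤ C)
    (c1 t K4 : ℝ) (hc1 : 0 ≤ c1) (hc1' : c1 ≤ 1)
    (gr th : W → Fin 3)
    (hfas : ∀ b κ, eE X.Th (blk X.bl b) (X.fas (t * X.d ^ 2) b κ) / 4 ≤
        X.cx gr (blk X.bl b) (X.fas (t * X.d ^ 2) b κ) + (X.d : ℝ) ^ (16 / 10 : ℝ))
    (pt : W → Fin 2) (cl cl' co : W → W → Fin 6)
    (R : SimpleGraph W) (sd : W → Bool)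
    (hP : Prs X gr th pt cl c1 t) (hS : Swp X K4 cl cl') (hG : SdG X C t gr th pt cl sd)
    (j : Fin 6) (p : (B × Fin 2) × Bool) (b : B) (hb : X.bo j p = some b) :
    c1 / 8 * eE X.Th (blk X.bl b) (scB X.Th X.bl (t * X.d ^ 2) b) ≤
      eE (X.HH co R cl' j) (nsd (X.nd th pt sd j) p.1 p.2) (scB X.Th X.bl (t * X.d ^ 2) b) +
        3 * ((X.d : ℝ) ^ (17 / 10 : ℝ) + (X.d : ℝ) ^ (16 / 10 : ℝ) + E2 X.d C) + M * X.d := by
  have hE2 : 0 ≤ E2 X.d C := by
    unfold E2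
    positivity
  have h17 : (0 : ℝ) ≤ (X.d : ℝ) ^ (17 / 10 : ℝ) := by positivity
  have h16 : (0 : ℝ) ≤ (X.d : ℝ) ^ (16 / 10 : ℝ) := by positivity
  obtain ⟨f, hf1, hf2, hf3⟩ := node X hE th pt sd j p b hb
  -- one kind
  have hkind : ∀ i : Fin 3, c1 / 8 * eE X.Th (blk X.bl b) (X.fas (t * X.d ^ 2) b (kf i)) ≤
      ng (fun v w => R5 X gr th pt cl t (b, i, f, j) v w ∧ (X.kd b ≠ Kd.S → sd v = p.2)) +
        ((X.d : ℝ) ^ (17 / 10 : ℝ) + (X.d : ℝ) ^ (16 / 10 : ℝ) + E2 X.d C) := by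
    intro i
    have h1 : c1 * X.cx gr (blk X.bl b) (X.fas (t * X.d ^ 2) b (kf i)) ≤
        ng (R5 X gr th pt cl t (b, i, f, j)) + (X.d : ℝ) ^ (17 / 10 : ℝ) :=
      hP.p5 b (kf i) f j hf1 hf2
    have h2 := mul_le_mul_of_nonneg_left (hfas b (kf i)) hc1
    have h3 := side5 X C t hE2 gr th pt cl sd hG (b, i, f, j) p.2
    have h4 : c1 * (X.d : ℝ) ^ (16 / 10 : ℝ) ≤ 1 * (X.d : ℝ) ^ (16 / 10 : ℝ) :=
      mul_le_mul_of_nonneg_right hc1' h16
    simp only at h3
    rw [mul_add] at h2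
    linarith
  -- decomposition
  have hdec : eE X.Th (blk X.bl b) (scB X.Th X.bl (t * X.d ^ 2) b) ≤
      (eE X.Th (blk X.bl b) (X.fas (t * X.d ^ 2) b (kf 0)) +
        eE X.Th (blk X.bl b) (X.fas (t * X.d ^ 2) b (kf 1)) +
        eE X.Th (blk X.bl b) (X.fas (t * X.d ^ 2) b (kf 2))) + M * X.d := by
    have h1 : eE X.Th (blk X.bl b) (scB X.Th X.bl (t * X.d ^ 2) b) ≤
        (eE X.Th (blk X.bl b) (X.fas (t * X.d ^ 2) b (kf 0)) +
        eE X.Th (blk X.bl b) (X.fas (t * X.d ^ 2) b (kf 1)) +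
        eE X.Th (blk X.bl b) (X.fas (t * X.d ^ 2) b (kf 2))) +
        ng (fun v w => ∃ b' ∈ univ.filter (fun b' => X.cb b' = X.cb b ∧ X.e b b' < X.d),
          v ∈ blk X.bl b ∧ w ∈ blk X.bl b' ∧ X.Th.Adj v w) := by
      rw [eE_ng, eE_ng, eE_ng, eE_ng]
      have h2 : ∀ v w, (v ∈ blk X.bl b ∧ w ∈ scB X.Th X.bl (t * X.d ^ 2) b ∧ X.Th.Adj v w) →
          (((v ∈ blk X.bl b ∧ w ∈ X.fas (t * X.d ^ 2) b (kf 0) ∧ X.Th.Adj v w) ∨
          (v ∈ blk X.bl b ∧ w ∈ X.fas (t * X.d ^ 2) b (kf 1) ∧ X.Th.Adj v w)) ∨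
          (v ∈ blk X.bl b ∧ w ∈ X.fas (t * X.d ^ 2) b (kf 2) ∧ X.Th.Adj v w)) ∨
          (∃ b' ∈ univ.filter (fun b' => X.cb b' = X.cb b ∧ X.e b b' < X.d),
          v ∈ blk X.bl b ∧ w ∈ blk X.bl b' ∧ X.Th.Adj v w) := by
        intro v w h
        obtain ⟨g1, g2, g3⟩ := h
        unfold scB at g2
        simp only [mem_filter, mem_univ, true_and] at g2
        obtain ⟨b', g4, g5⟩ := g2
        by_cases hn : X.cb b = X.cb b' ∧ X.e b b' < X.d
        · right
          refine ⟨b', ?_, g1, ?_, g3⟩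
          · simp only [mem_filter, mem_univ, true_and]
            exact ⟨hn.1.symm, hn.2⟩
          · unfold blk
            simp only [mem_filter, mem_univ, true_and]
            exact g4
        · left
          have hf : w ∈ X.fas (t * X.d ^ 2) b (X.kd b') := by
            unfold Dat.fas
            simp only [mem_filter, mem_univ, true_and]
            refine ⟨b', g4, rfl, g5, fun hcb => ?_⟩
            by_contra hlt
            exact hn ⟨hcb, not_le.1 hlt⟩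
          obtain ⟨i, hi⟩ := kf_ex (X.kd b')
          rw [← hi] at hf
          fin_cases i
          · exact Or.inl (Or.inl ⟨g1, hf, g3⟩)
          · exact Or.inl (Or.inr ⟨g1, hf, g3⟩)
          · exact Or.inr ⟨g1, hf, g3⟩
      refine (ng_le_or h2).trans (add_le_add_left ?_ _)
      refine (ng_or _ _).trans (add_le_add_left ?_ _)
      exact ng_or _ _
    refine h1.trans (add_le_add_right ?_ _)
    refine (ng_ex _ _).trans ?_
    calc ∑ b' ∈ univ.filter (fun b' => X.cb b' = X.cb b ∧ X.e b b' < X.d),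
          ng (fun v w => v ∈ blk X.bl b ∧ w ∈ blk X.bl b' ∧ X.Th.Adj v w)
        ≤ ∑ b' ∈ univ.filter (fun b' => X.cb b' = X.cb b ∧ X.e b b' < X.d), (X.d : ℝ) := by
          refine sum_le_sum fun b' hb' => ?_
          rw [← eE_ng]
          simp only [mem_filter, mem_univ, true_and] at hb'
          exact hb'.2.le
      _ = ((univ.filter (fun b' => X.cb b' = X.cb b ∧ X.e b b' < X.d)).card : ℝ) * X.d := by
          rw [sum_const, nsmul_eq_mul]
      _ ≤ M * X.d := by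
          refine mul_le_mul_of_nonneg_right ?_ (Nat.cast_nonneg _)
          have h3 : (univ.filter (fun b' => X.cb b' = X.cb b ∧ X.e b b' < X.d)).card ≤
              (univ.filter fun b' => X.cb b' = X.cb b).card := card_le_card fun b' hb' => by
            simp only [mem_filter, mem_univ, true_and] at hb' ⊢
            exact hb'.1
          exact_mod_cast h3.trans (card_cl X hE b)
  -- the edges of the class
  have hin : ∀ i v w, (R5 X gr th pt cl t (b, i, f, j) v w ∧ (X.kd b ≠ Kd.S → sd v = p.2)) →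
      v ∈ nsd (X.nd th pt sd j) p.1 p.2 ∧ w ∈ scB X.Th X.bl (t * X.d ^ 2) b ∧
        (X.HH co R cl' j).Adj v w := by
    intro i v w h
    obtain ⟨⟨g1, g2, g3, g4, g5, g6⟩, g7⟩ := h
    simp only at g1 g2 g3 g6
    unfold Dat.fas at g3
    simp only [mem_filter, mem_univ, true_and] at g3
    obtain ⟨b', g8, g9, g10, g11⟩ := g3
    have hv : X.bl v ≠ none := by
      rw [g1]
      simp
    have hw : X.bl w ≠ none := by
      rw [g8]
      simp
    refine ⟨hf3 v g1 g2 g7, ?_, HH_L X co R cl' hS.sym j v w hv g4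
      ((ch_L X K4 cl cl' hS v w hv hw).trans g6)⟩
    unfold scB
    simp only [mem_filter, mem_univ, true_and]
    exact ⟨b', g8, g10⟩
  have hdj : ∀ i i' v w, i ≠ i' →
      (R5 X gr th pt cl t (b, i, f, j) v w ∧ (X.kd b ≠ Kd.S → sd v = p.2)) →
      ¬ (R5 X gr th pt cl t (b, i', f, j) v w ∧ (X.kd b ≠ Kd.S → sd v = p.2)) := by
    intro i i' v w hii h h'
    have e1 := h.1.2.2.1
    have e2 := h'.1.2.2.1
    unfold Dat.fas at e1 e2
    simp only [mem_filter, mem_univ, true_and] at e1 e2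
    obtain ⟨b1, g1, g2, _⟩ := e1
    obtain ⟨b2, g3, g4, _⟩ := e2
    rw [g1] at g3
    rw [Option.some.inj g3, g4] at g2
    exact hii (kf_inj i' i g2).symm
  have hsum : ng (fun v w => R5 X gr th pt cl t (b, 0, f, j) v w ∧
      (X.kd b ≠ Kd.S → sd v = p.2)) +
      ng (fun v w => R5 X gr th pt cl t (b, 1, f, j) v w ∧ (X.kd b ≠ Kd.S → sd v = p.2)) +
      ng (fun v w => R5 X gr th pt cl t (b, 2, f, j) v w ∧ (X.kd b ≠ Kd.S → sd v = p.2)) ≤
      eE (X.HH co R cl' j) (nsd (X.nd th pt sd j) p.1 p.2) (scB X.Th X.bl (t * X.d ^ 2) b) := by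
    rw [eE_ng]
    have h1 := ng_disj (Λ := fun v w => R5 X gr th pt cl t (b, 0, f, j) v w ∧
        (X.kd b ≠ Kd.S → sd v = p.2))
      (Λ' := fun v w => R5 X gr th pt cl t (b, 1, f, j) v w ∧ (X.kd b ≠ Kd.S → sd v = p.2))
      (Λ'' := fun v w => (R5 X gr th pt cl t (b, 0, f, j) v w ∧
        (X.kd b ≠ Kd.S → sd v = p.2)) ∨
        (R5 X gr th pt cl t (b, 1, f, j) v w ∧ (X.kd b ≠ Kd.S → sd v = p.2)))
      (fun v w h => Or.inl h) (fun v w h => Or.inr h)
      (fun v w h => hdj 0 1 v w (by decide) h)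
    have h2 := ng_disj (Λ := fun v w => (R5 X gr th pt cl t (b, 0, f, j) v w ∧
        (X.kd b ≠ Kd.S → sd v = p.2)) ∨
        (R5 X gr th pt cl t (b, 1, f, j) v w ∧ (X.kd b ≠ Kd.S → sd v = p.2)))
      (Λ' := fun v w => R5 X gr th pt cl t (b, 2, f, j) v w ∧ (X.kd b ≠ Kd.S → sd v = p.2))
      (Λ'' := fun v w => v ∈ nsd (X.nd th pt sd j) p.1 p.2 ∧
        w ∈ scB X.Th X.bl (t * X.d ^ 2) b ∧ (X.HH co R cl' j).Adj v w)
      (fun v w h => h.elim (hin 0 v w) (hin 1 v w)) (fun v w h => hin 2 v w h)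
      (fun v w h => h.elim (hdj 0 2 v w (by decide)) (hdj 1 2 v w (by decide)))
    linarith
  have k0 := hkind 0
  have k1 := hkind 1
  have k2 := hkind 2
  have h9 := mul_le_mul_of_nonneg_left hdec (by linarith : (0 : ℝ) ≤ c1 / 8)
  have h10 : c1 / 8 * (M * X.d) ≤ 1 * ((M : ℝ) * X.d) :=
    mul_le_mul_of_nonneg_right (by linarith) (by positivity)
  rw [mul_add, mul_add, mul_add] at h9
  linarith

end Pool.Agent.Work.MP_db9399_shr_helper31
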