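import Pool.Agent.Work.MP_db9399_shr_helper31.Gen

/-!
# MP_db9399, SHR, part 3 (helper31): the families of tests
-/

set_option autoImplicit false
set_option linter.unusedSectionVars false

namespace Pool.Agent.Work.MP_db9399_shr_helper31

open Finset Classical
open Pool.Agent.Work.MP_db9399_ts
open Pool.Agent.Work.MP_db9399_all (nb)
open Pool.Agent.Work.MP_db9399_clj.helper75 (OO blk nB eE cO lgF scO scB scV Shr)

universe u

variable {W B : Type u} [Fintype W] [Fintype B]

/-- edges of one vertex of `O` to one block -/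
def R1 (X : Dat W B) (th : W → Fin 3) (pt : W → Fin 2) (cl : W → W → Fin 6)
    (q : W × B × Fin 6 × Fin 6) (v w : W) : Prop :=
  w = q.1 ∧ (X.bl q.1 = none ∧ X.G.Adj q.1 v ∧ X.bl v = some q.2.1 ∧
    X.lab th pt v = q.2.2.1 ∧ cl v q.1 = q.2.2.2)

/-- edges of one block to `scO` -/
def R3 (X : Dat W B) (th : W → Fin 3) (pt : W → Fin 2) (cl : W → W → Fin 6) (t : ℝ)
    (q : B × Fin 6 × Fin 6) (v w : W) : Prop :=
  X.bl v = some q.1 ∧ X.lab th pt v = q.2.1 ∧ w ∈ scO X.G X.bl (t * X.d) q.1 ∧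
    X.G.Adj v w ∧ cl v w = q.2.2

/-- edges between two blocks -/
def R4 (X : Dat W B) (gr : W → Fin 3) (th : W → Fin 3) (pt : W → Fin 2) (cl : W → W → Fin 6)
    (q : B × B × Fin 6 × Fin 6 × Fin 6) (v w : W) : Prop :=
  X.bl v = some q.1 ∧ X.bl w = some q.2.1 ∧ X.Th.Adj v w ∧ gr v ≠ gr w ∧
    X.lab th pt v = q.2.2.1 ∧ X.lab th pt w = q.2.2.2.1 ∧ cl v w = q.2.2.2.2

/-- the kinds -/
def kf (i : Fin 3) : Kd := if i = 0 then Kd.K else if i = 1 then Kd.N else Kd.S

theorem kf_ex (κ : Kd) : ∃ i, kf i = κ := by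
  cases κ
  · exact ⟨0, rfl⟩
  · exact ⟨1, rfl⟩
  · exact ⟨2, rfl⟩

/-- edges of a block to `fas` -/
def R5 (X : Dat W B) (gr : W → Fin 3) (th : W → Fin 3) (pt : W → Fin 2) (cl : W → W → Fin 6)
    (t : ℝ) (q : B × Fin 3 × Fin 6 × Fin 6) (v w : W) : Prop :=
  X.bl v = some q.1 ∧ X.lab th pt v = q.2.2.1 ∧ w ∈ X.fas (t * X.d ^ 2) q.1 (kf q.2.1) ∧
      X.Th.Adj v w ∧ gr v ≠ gr w ∧ cl v w = q.2.2.2

/-- supports and multiplicities of a family of relations -/
structure RH {τ : Type u} [Fintype τ] (Λ : τ → W → W → Prop) (d n : ℕ) : Prop where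
  sp : ∀ q, ((univ.filter fun v => ∃ w, Λ q v w).card : ℝ) ≤ (d : ℝ) ^ n
  mu : ∀ v, ((univ.filter fun q => ∃ w, Λ q v w).card : ℝ) ≤ (d : ℝ) ^ n

theorem RH.mono {τ : Type u} [Fintype τ] {Λ : τ → W → W → Prop} {d n m : ℕ} (h : RH Λ d n)
    (hd : 1 ≤ d) (hnm : n ≤ m) : RH Λ d m := by
  have hd' : (1 : ℝ) ≤ d := by exact_mod_cast hd
  exact ⟨fun q => (h.sp q).trans (pow_le_pow_right₀ hd' hnm),
    fun v => (h.mu v).trans (pow_le_pow_right₀ hd' hnm)⟩

theorem RH.sum {τ τ' : Type u} [Fintype τ] [Fintype τ'] {Λ : τ → W → W → Prop}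
    {Λ' : τ' → W → W → Prop} {d n : ℕ} (h : RH Λ d n) (h' : RH Λ' d n) (hd : 2 ≤ d) :
    RH (Sum.elim Λ Λ') d (n + 1) := by
  have hd' : (2 : ℝ) ≤ d := by exact_mod_cast hd
  have hn : (d : ℝ) ^ n + (d : ℝ) ^ n ≤ (d : ℝ) ^ (n + 1) := by
    rw [pow_succ]
    nlinarith [pow_nonneg (by linarith : (0 : ℝ) ≤ d) n]
  have hn' : (d : ℝ) ^ n ≤ (d : ℝ) ^ (n + 1) := pow_le_pow_right₀ (by linarith) (by omega)
  refine ⟨fun q => ?_, fun v => ?_⟩
  · rcases q with q | q
    · exact (h.sp q).trans hn'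
    · exact (h'.sp q).trans hn'
  · refine le_trans ?_ ((add_le_add (h.mu v) (h'.mu v)).trans hn)
    have h1 : (univ.filter fun q : τ ⊕ τ' => ∃ w, (Sum.elim Λ Λ') q v w) ⊆
        ((univ.filter fun q => ∃ w, Λ q v w).map Function.Embedding.inl) ∪
        ((univ.filter fun q => ∃ w, Λ' q v w).map Function.Embedding.inr) := by
      intro q hq
      rw [mem_filter] at hq
      rw [mem_union]
      rcases q with q | q
      · left
        rw [mem_map]
        exact ⟨q, mem_filter.2 ⟨mem_univ _, hq.2⟩, rfl⟩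
      · right
        rw [mem_map]
        exact ⟨q, mem_filter.2 ⟨mem_univ _, hq.2⟩, rfl⟩
    have h2 := (card_le_card h1).trans (card_union_le _ _)
    rw [card_map, card_map] at h2
    exact_mod_cast h2

theorem RH.fam {τ : Type u} [Fintype τ] {Λ : τ → W → W → Prop} {d : ℕ} (h : RH Λ d 6) :
    Fam (fun q v => rr (Λ q) v) d 6 := by
  have h6 : (d : ℝ) ^ (6 : ℝ) = (d : ℝ) ^ 6 := by
    rw [← Real.rpow_natCast]
    norm_num
  have h0 : ∀ q v, rr (Λ q) v ≠ 0 → ∃ w, Λ q v w := by
    intro q v h1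
    by_contra h2
    push Not at h2
    apply h1
    unfold rr
    rw [Nat.cast_eq_zero, card_eq_zero, eq_empty_iff_forall_notMem]
    intro w hw
    simp only [mem_filter, mem_univ, true_and] at hw
    exact h2 w hw
  refine ⟨fun q => ?_, fun v => ?_⟩
  · rw [h6]
    refine le_trans ?_ (h.sp q)
    exact_mod_cast card_le_card fun v hv => by
      simp only [mem_filter, mem_univ, true_and] at hv ⊢
      exact h0 q v hv
  · rw [h6]
    refine le_trans ?_ (h.mu v)
    exact_mod_cast card_le_card fun q hq => by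
      simp only [mem_filter, mem_univ, true_and] at hq ⊢
      exact h0 q v hq

/-- support in a block -/
theorem sp_blk (X : Dat W B) {M : ℕ} {C ζ θ c : ℝ} (hE : Env X M C ζ θ c) (hC : C ≤ X.d)
    (Λ : W → W → Prop) (b : B) (h : ∀ v w, Λ v w → X.bl v = some b) (n : ℕ) (hn : 2 ≤ n)
    (hd : 1 ≤ X.d) : ((univ.filter fun v => ∃ w, Λ v w).card : ℝ) ≤ (X.d : ℝ) ^ n := by
  have hd' : (1 : ℝ) ≤ X.d := by exact_mod_cast hd
  have h1 : (univ.filter fun v => ∃ w, Λ v w) ⊆ blk X.bl b := by
    intro v hv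
    unfold blk
    simp only [mem_filter, mem_univ, true_and] at hv ⊢
    obtain ⟨w, hw⟩ := hv
    exact h v w hw
  calc ((univ.filter fun v => ∃ w, Λ v w).card : ℝ) ≤ ((blk X.bl b).card : ℝ) := by
        exact_mod_cast card_le_card h1
    _ ≤ C * X.d := (hE.sz b).2
    _ ≤ (X.d : ℝ) ^ 2 := by
        rw [sq]
        exact mul_le_mul_of_nonneg_right hC (by linarith)
    _ ≤ (X.d : ℝ) ^ n := pow_le_pow_right₀ hd' hn

/-- multiplicities from a parametrisation -/
theorem mu_par {τ κ : Type u} [Fintype τ] [Fintype κ] (A : Finset τ) (U : Finset κ)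
    (Φ : κ → τ) (h : ∀ q ∈ A, ∃ a ∈ U, Φ a = q) : A.card ≤ U.card :=
  (card_le_card fun q hq => by
    obtain ⟨a, ha, rfl⟩ := h q hq
    exact mem_image_of_mem Φ ha).trans (card_image_le (f := Φ) (s := U))

theorem rh1 (X : Dat W B) {M : ℕ} {C ζ θ c : ℝ} (hE : Env X M C ζ θ c) (hC : C ≤ X.d)
    (hd : 216 ≤ X.d) (th : W → Fin 3) (pt : W → Fin 2) (cl : W → W → Fin 6) :
    RH (R1 X th pt cl) X.d 2 := by
  have hd' : (216 : ℝ) ≤ X.d := by exact_mod_cast hd
  refine ⟨fun q => sp_blk X hE hC _ q.2.1 (fun v w h => h.2.2.2.1) 2 le_rfl (by omega),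
    fun v => ?_⟩
  rcases hv : X.bl v with _ | b0
  · have : (univ.filter fun q => ∃ w, R1 X th pt cl q v w) = ∅ := by
      rw [eq_empty_iff_forall_notMem]
      intro q hq
      simp only [mem_filter, mem_univ, true_and] at hq
      obtain ⟨w, hw⟩ := hq
      have := hw.2.2.2.1
      rw [hv] at this
      exact absurd this (by simp)
    rw [this, card_empty, Nat.cast_zero]
    positivity
  · have h1 := mu_par (univ.filter fun q => ∃ w, R1 X th pt cl q v w)
      ((nb X.G v) ×ˢ (univ : Finset (Fin 6 × Fin 6))) (fun a => (a.1, b0, a.2.1, a.2.2))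
      (fun q hq => by
        simp only [mem_filter, mem_univ, true_and] at hq
        obtain ⟨w, hw⟩ := hq
        refine ⟨(q.1, q.2.2.1, q.2.2.2), ?_, ?_⟩
        · rw [mem_product]
          unfold nb
          simp only [mem_filter, mem_univ, true_and, and_true]
          exact hw.2.2.1.symm
        · have h2 := hw.2.2.2.1
          rw [hv] at h2
          have h3 := Option.some.inj h2
          simp only
          rw [h3])
    rw [card_product, hE.reg v] at h1
    have h2 : (univ : Finset (Fin 6 × Fin 6)).card = 36 := by rfl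
    rw [h2] at h1
    calc ((univ.filter fun q => ∃ w, R1 X th pt cl q v w).card : ℝ) ≤ ((X.d * 36 : ℕ) : ℝ) := by
          exact_mod_cast h1
      _ ≤ (X.d : ℝ) ^ 2 := by
          push_cast
          nlinarith

theorem rh3 (X : Dat W B) {M : ℕ} {C ζ θ c : ℝ} (hE : Env X M C ζ θ c) (hC : C ≤ X.d)
    (hd : 216 ≤ X.d) (th : W → Fin 3) (pt : W → Fin 2) (cl : W → W → Fin 6) (t : ℝ) :
    RH (R3 X th pt cl t) X.d 2 := by
  have hd' : (216 : ℝ) ≤ X.d := by exact_mod_cast hd
  refine ⟨fun q => sp_blk X hE hC _ q.1 (fun v w h => h.1) 2 le_rfl (by omega),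
    fun v => ?_⟩
  rcases hv : X.bl v with _ | b0
  · have : (univ.filter fun q => ∃ w, R3 X th pt cl t q v w) = ∅ := by
      rw [eq_empty_iff_forall_notMem]
      intro q hq
      simp only [mem_filter, mem_univ, true_and] at hq
      obtain ⟨w, hw⟩ := hq
      have := hw.1
      rw [hv] at this
      exact absurd this (by simp)
    rw [this, card_empty, Nat.cast_zero]
    positivity
  · have h1 := mu_par (univ.filter fun q => ∃ w, R3 X th pt cl t q v w)
      ((nb X.G v) ×ˢ (univ : Finset (Fin 6 × Fin 6))) (fun a => (b0, a.2.1, a.2.2))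
      (fun q hq => by
        simp only [mem_filter, mem_univ, true_and] at hq
        obtain ⟨w, hw⟩ := hq
        refine ⟨(w, q.2.1, q.2.2), ?_, ?_⟩
        · rw [mem_product]
          unfold nb
          simp only [mem_filter, mem_univ, true_and, and_true]
          exact hw.2.2.2.1
        · have h2 := hw.1
          rw [hv] at h2
          have h3 := Option.some.inj h2
          simp only
          rw [h3])
    rw [card_product, hE.reg v] at h1
    have h2 : (univ : Finset (Fin 6 × Fin 6)).card = 36 := by rfl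
    rw [h2] at h1
    calc ((univ.filter fun q => ∃ w, R3 X th pt cl t q v w).card : ℝ) ≤ ((X.d * 36 : ℕ) : ℝ) := by
          exact_mod_cast h1
      _ ≤ (X.d : ℝ) ^ 2 := by
          push_cast
          nlinarith

theorem rh4 (X : Dat W B) {M : ℕ} {C ζ θ c : ℝ} (hE : Env X M C ζ θ c) (hC : C ≤ X.d)
    (hd : 216 ≤ X.d) (gr th : W → Fin 3) (pt : W → Fin 2) (cl : W → W → Fin 6) :
    RH (R4 X gr th pt cl) X.d 2 := by
  have hd' : (216 : ℝ) ≤ X.d := by exact_mod_cast hd
  refine ⟨fun q => sp_blk X hE hC _ q.1 (fun v w h => h.1) 2 le_rfl (by omega),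
    fun v => ?_⟩
  rcases hv : X.bl v with _ | b0
  · have : (univ.filter fun q => ∃ w, R4 X gr th pt cl q v w) = ∅ := by
      rw [eq_empty_iff_forall_notMem]
      intro q hq
      simp only [mem_filter, mem_univ, true_and] at hq
      obtain ⟨w, hw⟩ := hq
      have := hw.1
      rw [hv] at this
      exact absurd this (by simp)
    rw [this, card_empty, Nat.cast_zero]
    positivity
  · have h1 := mu_par (univ.filter fun q => ∃ w, R4 X gr th pt cl q v w)
      ((nb X.G v) ×ˢ (univ : Finset (Fin 6 × Fin 6 × Fin 6)))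
      (fun a => (b0, (X.bl a.1).getD b0, a.2.1, a.2.2.1, a.2.2.2))
      (fun q hq => by
        simp only [mem_filter, mem_univ, true_and] at hq
        obtain ⟨w, hw⟩ := hq
        refine ⟨(w, q.2.2.1, q.2.2.2.1, q.2.2.2.2), ?_, ?_⟩
        · rw [mem_product]
          unfold nb
          simp only [mem_filter, mem_univ, true_and, and_true]
          exact hw.2.2.1.1
        · have h2 := hw.1
          rw [hv] at h2
          have h3 := Option.some.inj h2
          have h4 := hw.2.1
          simp only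
          rw [h3, h4]
          rfl)
    rw [card_product, hE.reg v] at h1
    have h2 : (univ : Finset (Fin 6 × Fin 6 × Fin 6)).card = 216 := by
      simp only [card_univ, Fintype.card_prod, Fintype.card_fin]
    rw [h2] at h1
    calc ((univ.filter fun q => ∃ w, R4 X gr th pt cl q v w).card : ℝ) ≤
        ((X.d * 216 : ℕ) : ℝ) := Nat.cast_le.2 h1
      _ ≤ (X.d : ℝ) ^ 2 := by
          rw [sq, Nat.cast_mul]
          exact mul_le_mul_of_nonneg_left hd' (by linarith)

theorem rh5 (X : Dat W B) {M : ℕ} {C ζ θ c : ℝ} (hE : Env X M C ζ θ c) (hC : C ≤ X.d)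
    (hd : 216 ≤ X.d) (gr th : W → Fin 3) (pt : W → Fin 2) (cl : W → W → Fin 6) (t : ℝ) :
    RH (R5 X gr th pt cl t) X.d 2 := by
  have hd' : (216 : ℝ) ≤ X.d := by exact_mod_cast hd
  refine ⟨fun q => sp_blk X hE hC _ q.1 (fun v w h => h.1) 2 le_rfl (by omega),
    fun v => ?_⟩
  rcases hv : X.bl v with _ | b0
  · have : (univ.filter fun q => ∃ w, R5 X gr th pt cl t q v w) = ∅ := by
      rw [eq_empty_iff_forall_notMem]
      intro q hq
      simp only [mem_filter, mem_univ, true_and] at hq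
      obtain ⟨w, hw⟩ := hq
      have := hw.1
      rw [hv] at this
      exact absurd this (by simp)
    rw [this, card_empty, Nat.cast_zero]
    positivity
  · have h1 := mu_par (univ.filter fun q => ∃ w, R5 X gr th pt cl t q v w)
      ((nb X.G v) ×ˢ (univ : Finset (Fin 3 × Fin 6 × Fin 6)))
      (fun a => (b0, a.2.1, a.2.2.1, a.2.2.2))
      (fun q hq => by
        simp only [mem_filter, mem_univ, true_and] at hq
        obtain ⟨w, hw⟩ := hq
        refine ⟨(w, q.2.1, q.2.2.1, q.2.2.2), ?_, ?_⟩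
        · rw [mem_product]
          unfold nb
          simp only [mem_filter, mem_univ, true_and, and_true]
          exact hw.2.2.2.1.1
        · have h2 := hw.1
          rw [hv] at h2
          have h3 := Option.some.inj h2
          simp only
          rw [h3])
    rw [card_product, hE.reg v] at h1
    have h2 : (univ : Finset (Fin 3 × Fin 6 × Fin 6)).card = 108 := by rfl
    rw [h2] at h1
    calc ((univ.filter fun q => ∃ w, R5 X gr th pt cl t q v w).card : ℝ) ≤
        ((X.d * 108 : ℕ) : ℝ) := by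
          exact_mod_cast h1
      _ ≤ (X.d : ℝ) ^ 2 := by
          push_cast
          nlinarith

end Pool.Agent.Work.MP_db9399_shr_helper31
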