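import Pool.Agent.Work.MP_db9399_ts.Shares

/-!
# MP_db9399, SHR, part 1 (helper31): the sides of the nodes and the edges of the classes
-/

set_option autoImplicit false
set_option linter.unusedSectionVars false

namespace Pool.Agent.Work.MP_db9399_shr_helper31

open Finset Classical
open Pool.Agent.Work.MP_db9399_ts
open Pool.Agent.Work.MP_db9399_all (nb)
open Pool.Agent.Work.MP_db9399_sg (nsd)
open Pool.Agent.Work.MP_db9399_clj.helper75 (OO blk nB eE cO lgF scO scB scV Shr)

universe u

variable {W B : Type u} [Fintype W] [Fintype B]

theorem ty_iff (X : Dat W B) (T : Kd → Prop) (v : W) (b : B) (hv : X.bl v = some b) :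
    X.ty T v ↔ T (X.kd b) := by
  unfold Dat.ty
  constructor
  · rintro ⟨b', h1, h2⟩
    rw [hv] at h1
    rw [Option.some.inj h1]
    exact h2
  · exact fun h => ⟨b, hv, h⟩

/-- A side of a node of the class `j` contains all vertices of its block with one label and, if the
block is not of kind S, the right side. -/
theorem node (X : Dat W B) {M : ℕ} {C ζ θ c : ℝ} (hE : Env X M C ζ θ c) (th : W → Fin 3)
    (pt : W → Fin 2) (sd : W → Bool) (j : Fin 6) (p : (B × Fin 2) × Bool) (b : B)
    (hb : X.bo j p = some b) :
    ∃ f, X.kb b f ∧ j ≠ f ∧ ∀ v, X.bl v = some b → X.lab th pt v = f →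
      (X.kd b ≠ Kd.S → sd v = p.2) → v ∈ nsd (X.nd th pt sd j) p.1 p.2 := by
  obtain ⟨⟨r, i⟩, s⟩ := p
  unfold Dat.bo at hb
  simp only at hb
  split_ifs at hb with h1 h2
  · -- kind S, b = op r
    obtain ⟨hr, hK, hN⟩ := h1
    have hb' : X.op r = b := Option.some.inj hb
    subst hb'
    have hk : X.kd (X.op r) = Kd.S := (X.kd (X.op r)).casesOn
      (motive := fun κ => X.kd (X.op r) = κ → X.kd (X.op r) = Kd.S)
      (fun h => (hE.opk r).1.trans h2.1) (fun h => (hE.opk r).1.trans h2.1) (fun h => h) rfl
    have hnK : X.kd r ≠ Kd.K := by
      rw [h2.1]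
      exact fun h => Kd.noConfusion h
    refine ⟨cQ i, Or.inr ⟨by rw [hk]; exact fun h => Kd.noConfusion h, ?_⟩, hN hnK, ?_⟩
    · fin_cases i
      · exact Or.inl rfl
      · exact Or.inr rfl
    · intro v hv hl _
      have hkK : ¬ X.kK v := by
        unfold Dat.kK
        rw [ty_iff X _ v _ hv, hk]
        exact fun h => Kd.noConfusion h
      have hkN : X.kN v := by
        unfold Dat.kN
        rw [ty_iff X _ v _ hv, hk]
        exact fun h => Kd.noConfusion h
      have hpt : pt v = i := by
        unfold Dat.lab at hl
        rw [if_neg hkK, if_pos hkN] at hl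
        unfold cQ at hl
        have := congrArg Fin.val hl
        simp only at this
        exact Fin.ext (by omega)
      have hal : X.al th pt j v := by
        refine ⟨fun h => absurd h hkK, fun _ => ?_⟩
        rw [hpt]
        exact hN hnK
      unfold nsd
      simp only [mem_filter, mem_univ, true_and]
      unfold Dat.nd
      rw [hv, Option.bind_some, if_pos hal, hk, (hE.opk r).2.2, hr, if_neg (by
        exact fun h => Kd.noConfusion h), if_pos rfl, hpt, (hE.opS r h2.1).1]
      have : (!X.sb r) = s := by
        have := h2.2
        cases h3 : X.sb r <;> cases s <;> simp_all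
      rw [this]
  · -- b = r
    obtain ⟨hr, hK, hN⟩ := h1
    have hb' : r = b := Option.some.inj hb
    subst hb'
    rcases hk : X.kd r with _ | _ | _
    · -- kind K
      have hi : i = 0 := hK hk
      refine ⟨if j = 0 then 1 else 0, Or.inl ⟨hk, ?_⟩, ?_, ?_⟩
      · split_ifs <;> decide
      · split_ifs with h
        · rw [h]
          decide
        · exact h
      · intro v hv hl hs
        have hkK : X.kK v := by
          unfold Dat.kK
          rw [ty_iff X _ v _ hv]
          exact hk
        have hnN : ¬ X.ty (fun κ => κ ≠ Kd.K) v := by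
          rw [ty_iff X _ v _ hv]
          exact fun h => h hk
        have hal : X.al th pt j v := by
          refine ⟨fun _ => ?_, fun h => absurd h hnN⟩
          unfold Dat.lab at hl
          rw [if_pos hkK] at hl
          rw [hl]
          split_ifs with h
          · rw [h]
            decide
          · exact h
        unfold nsd
        simp only [mem_filter, mem_univ, true_and]
        unfold Dat.nd
        rw [hv, Option.bind_some, if_pos hal, hk, hr, if_pos rfl, if_neg (by
          exact fun h => Kd.noConfusion h), hi, hs (fun h => Kd.noConfusion h)]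
    · -- kind N
      have hnK : X.kd r ≠ Kd.K := by
        rw [hk]
        exact fun h => Kd.noConfusion h
      refine ⟨cQ i, Or.inr ⟨hnK, ?_⟩, hN hnK, ?_⟩
      · fin_cases i
        · exact Or.inl rfl
        · exact Or.inr rfl
      · intro v hv hl hs
        have hkK : ¬ X.kK v := by
          unfold Dat.kK
          rw [ty_iff X _ v _ hv]
          exact hnK
        have hkN : X.kN v := by
          unfold Dat.kN
          rw [ty_iff X _ v _ hv]
          exact hnK
        have hpt : pt v = i := by
          unfold Dat.lab at hl
          rw [if_neg hkK, if_pos hkN] at hl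
          unfold cQ at hl
          have := congrArg Fin.val hl
          simp only at this
          exact Fin.ext (by omega)
        have hal : X.al th pt j v := by
          refine ⟨fun h => absurd h hkK, fun _ => ?_⟩
          rw [hpt]
          exact hN hnK
        unfold nsd
        simp only [mem_filter, mem_univ, true_and]
        unfold Dat.nd
        rw [hv, Option.bind_some, if_pos hal, hk, hr, if_neg (by
          exact fun h => Kd.noConfusion h), if_neg (by
          exact fun h => Kd.noConfusion h), hpt, hs (fun h => Kd.noConfusion h)]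
    · -- kind S
      have hnK : X.kd r ≠ Kd.K := by
        rw [hk]
        exact fun h => Kd.noConfusion h
      have hsb : X.sb r = s := by
        by_contra h
        exact h2 ⟨hk, h⟩
      refine ⟨cQ i, Or.inr ⟨hnK, ?_⟩, hN hnK, ?_⟩
      · fin_cases i
        · exact Or.inl rfl
        · exact Or.inr rfl
      · intro v hv hl hs
        have hkK : ¬ X.kK v := by
          unfold Dat.kK
          rw [ty_iff X _ v _ hv]
          exact hnK
        have hkN : X.kN v := by
          unfold Dat.kN
          rw [ty_iff X _ v _ hv]
          exact hnK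
        have hpt : pt v = i := by
          unfold Dat.lab at hl
          rw [if_neg hkK, if_pos hkN] at hl
          unfold cQ at hl
          have := congrArg Fin.val hl
          simp only at this
          exact Fin.ext (by omega)
        have hal : X.al th pt j v := by
          refine ⟨fun h => absurd h hkK, fun _ => ?_⟩
          rw [hpt]
          exact hN hnK
        unfold nsd
        simp only [mem_filter, mem_univ, true_and]
        unfold Dat.nd
        rw [hv, Option.bind_some, if_pos hal, hk, hr, if_neg (by
          exact fun h => Kd.noConfusion h), if_pos rfl, hpt, hsb]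

/-- thin edges at `O` -/
theorem Th_O (X : Dat W B) {M : ℕ} {C ζ θ c : ℝ} (hE : Env X M C ζ θ c) (x v : W)
    (hx : X.bl x = none) : X.Th.Adj x v ↔ X.G.Adj x v := by
  constructor
  · exact fun h => h.1
  · refine fun h => ⟨h, fun h2 => ?_⟩
    obtain ⟨b, h3, _⟩ := hE.bk x v h2
    rw [hx] at h3
    exact absurd h3 (by simp)

/-- edges of the class between `O` and light vertices -/
theorem HH_O (X : Dat W B) {M : ℕ} {C ζ θ c : ℝ} (hE : Env X M C ζ θ c)
    (co : W → W → Fin 6) (R : SimpleGraph W) (cl : W → W → Fin 6)
    (sym : ∀ v w, cl v w = cl w v) (j : Fin 6) (x v : W) (hx : X.bl x = none)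
    (hv : X.bl v ≠ none) (ha : X.G.Adj x v) (hc : cl x v = j) : (X.HH co R cl j).Adj x v :=
  Or.inr ⟨⟨(Th_O X hE x v hx).2 ha, fun h => hv h.2⟩, hc, (sym v x).trans hc⟩

/-- edges of the class between light vertices -/
theorem HH_L (X : Dat W B) (co : W → W → Fin 6) (R : SimpleGraph W) (cl : W → W → Fin 6)
    (sym : ∀ v w, cl v w = cl w v) (j : Fin 6) (v w : W) (hv : X.bl v ≠ none)
    (ha : X.Th.Adj v w) (hc : cl v w = j) : (X.HH co R cl j).Adj v w :=
  Or.inr ⟨⟨ha, fun h => hv h.1⟩, hc, (sym w v).trans hc⟩

end Pool.Agent.Work.MP_db9399_shr_helper31
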